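import Mathlib

/-!
# Averages of convolutions with a rapidly decreasing kernel
-/

set_option autoImplicit false

open MeasureTheory Set

namespace Pool.Agent.T6.H6.MA

theorem avg {K G H : ℝ → ℝ} {A B X : ℝ} (hA : 0 ≤ A) (hB : 0 ≤ B) (hX : 0 ≤ X)
    (hKc : Continuous K) (hK0 : ∀ w, 0 ≤ K w) (hKA : ∀ w, K w ≤ A * ((1 + w ^ 2)⁻¹) ^ 16)
    (hGc : Continuous G) (hG0 : ∀ x, 0 ≤ G x) (hGB : ∀ x, G x ≤ B * (1 + x ^ 2) ^ 2)
    (hHc : Continuous H) (hH : ∀ t ∈ Icc 0 X, H t ≤ ∫ w, K w * G (t + w)) :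
    ∫ t in (0:ℝ)..X, H t ≤ (∫ w, K w) * (∫ t in (-X)..(X + X), G t) + 4 * Real.pi * (A * B) := by
  have hi := integrable_inv_one_add_sq
  have h1 : ∀ w : ℝ, 0 < (1 + w ^ 2)⁻¹ ∧ (1 + w ^ 2)⁻¹ ≤ 1 := by
    intro w
    have h0 : 0 < 1 + w ^ 2 := by positivity
    refine ⟨by positivity, ?_⟩
    rw [inv_le_one_iff₀]; right; nlinarith [sq_nonneg w]
  have hKi0 : Integrable K := by
    refine (hi.const_mul A).mono' hKc.aestronglyMeasurable (Filter.Eventually.of_forall fun w => ?_)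
    rw [Real.norm_of_nonneg (hK0 w)]
    refine (hKA w).trans (mul_le_mul_of_nonneg_left ?_ hA)
    exact pow_le_of_le_one (h1 w).1.le (h1 w).2 (by norm_num)
  have hcont : Continuous fun q : ℝ × ℝ => K q.2 * G (q.1 + q.2) := by fun_prop
  have hbd : ∀ t ∈ Ioc 0 X, ∀ w, K w * G (t + w) ≤
      4 * (A * B) * (1 + X ^ 2) ^ 2 * (((1 + w ^ 2)⁻¹) ^ 13 * (1 + w ^ 2)⁻¹) := by
    intro t ht w
    have h2 : t ^ 2 ≤ X ^ 2 := pow_le_pow_left₀ ht.1.le ht.2 2
    have h3 : 1 + (t + w) ^ 2 ≤ 2 * (1 + X ^ 2) * (1 + w ^ 2) := by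
      nlinarith [sq_nonneg (t - w), sq_nonneg w, mul_nonneg (sq_nonneg X) (sq_nonneg w)]
    have h4 : (1 + (t + w) ^ 2) ^ 2 ≤ (2 * (1 + X ^ 2) * (1 + w ^ 2)) ^ 2 :=
      pow_le_pow_left₀ (by positivity) h3 2
    have h5 : G (t + w) ≤ B * (2 * (1 + X ^ 2) * (1 + w ^ 2)) ^ 2 :=
      (hGB _).trans (mul_le_mul_of_nonneg_left h4 hB)
    have hw0 : 0 < 1 + w ^ 2 := by positivity
    calc K w * G (t + w) ≤ (A * ((1 + w ^ 2)⁻¹) ^ 16) * (B * (2 * (1 + X ^ 2) * (1 + w ^ 2)) ^ 2) :=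
          mul_le_mul (hKA w) h5 (hG0 _) (by positivity)
      _ = 4 * (A * B) * (1 + X ^ 2) ^ 2 * (((1 + w ^ 2)⁻¹) ^ 13 * (1 + w ^ 2)⁻¹) *
          (((1 + w ^ 2)⁻¹ * (1 + w ^ 2)) ^ 2) := by ring
      _ = _ := by rw [inv_mul_cancel₀ hw0.ne']; ring
  have hbd1 : ∀ t ∈ Ioc 0 X, ∀ w, K w * G (t + w) ≤ 4 * (A * B) * (1 + X ^ 2) ^ 2 * (1 + w ^ 2)⁻¹ := by
    intro t ht w
    refine (hbd t ht w).trans (mul_le_mul_of_nonneg_left ?_ (by positivity))
    exact mul_le_of_le_one_left (h1 w).1.le (pow_le_one₀ (h1 w).1.le (h1 w).2)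
  have hint : Integrable (fun q : ℝ × ℝ => K q.2 * G (q.1 + q.2))
      ((volume.restrict (Ioc 0 X)).prod volume) := by
    have h1' : Integrable (fun q : ℝ × ℝ => (1:ℝ) * (4 * (A * B) * (1 + X ^ 2) ^ 2 * (1 + q.2 ^ 2)⁻¹))
        ((volume.restrict (Ioc 0 X)).prod volume) :=
      Integrable.mul_prod (integrable_const (1:ℝ)) (hi.const_mul _)
    refine h1'.mono' hcont.aestronglyMeasurable ?_
    have h2 : ((volume.restrict (Ioc 0 X)).prod (volume : Measure ℝ)) =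
        (volume.prod volume).restrict (Ioc (0:ℝ) X ×ˢ univ) := by
      rw [← Measure.prod_restrict, Measure.restrict_univ]
    rw [h2]
    refine (ae_restrict_mem (measurableSet_Ioc.prod MeasurableSet.univ)).mono fun q hq => ?_
    rw [Real.norm_of_nonneg (mul_nonneg (hK0 _) (hG0 _)), one_mul]
    exact hbd1 q.1 hq.1 q.2
  have s1 : ∫ t in (0:ℝ)..X, H t ≤ ∫ t in Ioc 0 X, ∫ w, K w * G (t + w) := by
    rw [intervalIntegral.integral_of_le hX]
    refine setIntegral_mono_on ?_ ?_ measurableSet_Ioc ?_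
    · exact (hHc.integrableOn_Icc (a := 0) (b := X)).mono_set Ioc_subset_Icc_self
    · exact hint.integral_prod_left
    · intro t ht
      exact hH t (Ioc_subset_Icc_self ht)
  have s2 : ∫ t in Ioc 0 X, ∫ w, K w * G (t + w) = ∫ w, ∫ t in Ioc 0 X, K w * G (t + w) :=
    integral_integral_swap hint
  rw [s2] at s1
  refine s1.trans ?_
  obtain ⟨E, hE⟩ : ∃ E : ℝ, E = ∫ t in (-X)..(X + X), G t := ⟨_, rfl⟩
  have hE0 : 0 ≤ E := by
    rw [hE]
    exact intervalIntegral.integral_nonneg (by linarith) fun x _ => hG0 x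
  have hgi : Integrable fun w => K w * E + 4 * (A * B) * (1 + w ^ 2)⁻¹ :=
    (hKi0.mul_const E).add (hi.const_mul _)
  have s3 : ∫ w, ∫ t in Ioc 0 X, K w * G (t + w) ≤ ∫ w, (K w * E + 4 * (A * B) * (1 + w ^ 2)⁻¹) := by
    refine integral_mono_of_nonneg (Filter.Eventually.of_forall fun w => ?_) hgi
      (Filter.Eventually.of_forall fun w => ?_)
    · exact integral_nonneg fun t => mul_nonneg (hK0 w) (hG0 _)
    · simp only
      have hcw : Continuous fun t => K w * G (t + w) := by fun_prop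
      by_cases hw : X < |w|
      · have h4 : ∫ t in Ioc 0 X, K w * G (t + w) ≤
            ∫ t in Ioc 0 X, 4 * (A * B) * (1 + X ^ 2) ^ 2 * (((1 + w ^ 2)⁻¹) ^ 13 * (1 + w ^ 2)⁻¹) := by
          refine setIntegral_mono_on ?_ ?_ measurableSet_Ioc fun t ht => hbd t ht w
          · exact (hcw.integrableOn_Icc (a := 0) (b := X)).mono_set Ioc_subset_Icc_self
          · exact integrableOn_const (by simp)
        rw [setIntegral_const, Measure.real, Real.volume_Ioc, sub_zero,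
          ENNReal.toReal_ofReal hX, smul_eq_mul] at h4
        have h5 := mul_nonneg (hK0 w) hE0
        have hX2 : 0 < 1 + X ^ 2 := by positivity
        have h6 : (1 + w ^ 2)⁻¹ ≤ (1 + X ^ 2)⁻¹ := by
          refine inv_anti₀ hX2 ?_
          have : X ^ 2 ≤ |w| ^ 2 := pow_le_pow_left₀ hX hw.le 2
          rw [sq_abs] at this
          linarith
        have h7 : ((1 + w ^ 2)⁻¹) ^ 13 ≤ ((1 + X ^ 2)⁻¹) ^ 3 := by
          calc ((1 + w ^ 2)⁻¹) ^ 13 ≤ ((1 + w ^ 2)⁻¹) ^ 3 :=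
                pow_le_pow_of_le_one (h1 w).1.le (h1 w).2 (by norm_num)
            _ ≤ ((1 + X ^ 2)⁻¹) ^ 3 := pow_le_pow_left₀ (h1 w).1.le h6 3
        have h8 : X * (1 + X ^ 2)⁻¹ ≤ 1 := by
          rw [← div_eq_mul_inv, div_le_one hX2]
          nlinarith [sq_nonneg (X - 1)]
        have h9 : X * ((1 + X ^ 2) ^ 2 * ((1 + w ^ 2)⁻¹) ^ 13) ≤ 1 := by
          calc X * ((1 + X ^ 2) ^ 2 * ((1 + w ^ 2)⁻¹) ^ 13) ≤ X * ((1 + X ^ 2) ^ 2 * ((1 + X ^ 2)⁻¹) ^ 3) := by gcongr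
            _ = (X * (1 + X ^ 2)⁻¹) * ((1 + X ^ 2) * (1 + X ^ 2)⁻¹) ^ 2 := by ring
            _ = X * (1 + X ^ 2)⁻¹ := by rw [mul_inv_cancel₀ hX2.ne']; ring
            _ ≤ 1 := h8
        calc ∫ t in Ioc 0 X, K w * G (t + w) ≤
            X * (4 * (A * B) * (1 + X ^ 2) ^ 2 * (((1 + w ^ 2)⁻¹) ^ 13 * (1 + w ^ 2)⁻¹)) := h4
          _ = (X * ((1 + X ^ 2) ^ 2 * ((1 + w ^ 2)⁻¹) ^ 13)) * (4 * (A * B) * (1 + w ^ 2)⁻¹) := by ring
          _ ≤ 1 * (4 * (A * B) * (1 + w ^ 2)⁻¹) := by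
              refine mul_le_mul_of_nonneg_right h9 ?_
              have := (h1 w).1
              positivity
          _ ≤ _ := by linarith
      · rw [integral_const_mul]
        push Not at hw
        have hw' := abs_le.mp hw
        have h10 : ∫ t in Ioc 0 X, G (t + w) ≤ E := by
          rw [← intervalIntegral.integral_of_le hX, intervalIntegral.integral_comp_add_right
            (fun x => G x), hE]
          refine intervalIntegral.integral_mono_interval (by linarith) (by linarith) (by linarith)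
            (Filter.Eventually.of_forall fun x => hG0 x) (hGc.intervalIntegrable _ _)
        have h11 := mul_le_mul_of_nonneg_left h10 (hK0 w)
        have h12 : 0 ≤ 4 * (A * B) * (1 + w ^ 2)⁻¹ := by
          have := (h1 w).1
          positivity
        linarith
  refine s3.trans (le_of_eq ?_)
  rw [integral_add (hKi0.mul_const E) (hi.const_mul _), integral_mul_const, integral_const_mul,
    integral_univ_inv_one_add_sq, hE]
  ring

end Pool.Agent.T6.H6.MA
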