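import Mathlib

/-!
# Interchanging two limits
-/

set_option autoImplicit false

open Filter Topology

namespace Pool.Agent.T6.H6.MA

/-- powers of sums -/
lemma pow_eps {β ε : ℝ} (hβ : 0 < β) (hε : 0 < ε) : ∃ C : ℝ, 0 < C ∧ ∀ u v : ℝ, 0 ≤ u → 0 ≤ v →
    (u + v) ^ β ≤ (1 + ε) * u ^ β + C * v ^ β := by
  obtain ⟨δ, hδ⟩ : ∃ δ : ℝ, δ = (1 + ε) ^ (1 / β) - 1 := ⟨_, rfl⟩
  have hδ0 : 0 < δ := by
    rw [hδ, sub_pos]
    exact Real.one_lt_rpow (by linarith) (by positivity)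
  have hδ1 : (1 + δ) ^ β = 1 + ε := by
    rw [hδ, add_sub_cancel, ← Real.rpow_mul (by linarith), one_div_mul_cancel hβ.ne', Real.rpow_one]
  refine ⟨(1 + δ⁻¹) ^ β, by positivity, fun u v hu hv => ?_⟩
  have hup := Real.rpow_nonneg hu β
  have hvp := Real.rpow_nonneg hv β
  rcases le_or_gt v (δ * u) with h | h
  · calc (u + v) ^ β ≤ ((1 + δ) * u) ^ β := Real.rpow_le_rpow (by positivity) (by linarith) hβ.le
      _ = (1 + ε) * u ^ β := by rw [Real.mul_rpow (by positivity) hu, hδ1]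
      _ ≤ _ := by
          have : 0 ≤ (1 + δ⁻¹) ^ β * v ^ β := by positivity
          linarith
  · have h2 : u ≤ δ⁻¹ * v := by
      rw [inv_mul_eq_div, le_div_iff₀ hδ0]
      linarith
    calc (u + v) ^ β ≤ ((1 + δ⁻¹) * v) ^ β := Real.rpow_le_rpow (by positivity) (by linarith) hβ.le
      _ = (1 + δ⁻¹) ^ β * v ^ β := Real.mul_rpow (by positivity) hv
      _ ≤ _ := by
          have : 0 ≤ (1 + ε) * u ^ β := by positivity
          linarith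

/-- two limits -/
theorem two_lim {M : ℝ → ℝ} {N : ℝ → ℝ → ℝ} {J : ℝ → ℝ} (hM : ∀ᶠ T in atTop, 0 ≤ M T) (hN : ∀ η T, 0 < η → 0 < T → 0 ≤ N η T)
    (h1 : ∀ η, 0 < η → Tendsto (N η) atTop (𝓝 (J η)))
    (h2 : ∀ ε δ : ℝ, 0 < ε → 0 < δ → ∃ η2 : ℝ, 0 < η2 ∧ ∀ η, 0 < η → η < η2 → ∀ᶠ T in atTop,
      M T ≤ (1 + ε) * N η T + δ ∧ N η T ≤ (1 + ε) * M T + δ) :
    ∃ L : ℝ, Tendsto J (𝓝[>] 0) (𝓝 L) ∧ Tendsto M atTop (𝓝 L) := by
  have hJ0 : ∀ η, 0 < η → 0 ≤ J η := fun η hη =>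
    ge_of_tendsto (h1 η hη) (by filter_upwards [eventually_gt_atTop (0:ℝ)] with T hT using hN η T hη hT)
  -- comparison of two values
  have hcmp : ∀ ε δ : ℝ, 0 < ε → 0 < δ → ∃ η2 : ℝ, 0 < η2 ∧ ∀ η η' : ℝ, 0 < η → η < η2 → 0 < η' → η' < η2 →
      J η ≤ (1 + ε) * ((1 + ε) * J η' + δ) + δ := by
    intro ε δ hε hδ
    obtain ⟨η2, hη2, h⟩ := h2 ε δ hε hδ
    refine ⟨η2, hη2, fun η η' g1 g2 g3 g4 => ?_⟩
    have l1 : Tendsto (fun T => (1 + ε) * ((1 + ε) * N η' T + δ) + δ) atTop (𝓝 ((1 + ε) * ((1 + ε) * J η' + δ) + δ)) :=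
      ((((h1 η' g3).const_mul _).add_const _).const_mul _).add_const _
    refine le_of_tendsto_of_tendsto (h1 η g1) l1 ?_
    filter_upwards [h η g1 g2, h η' g3 g4] with T e1 e2
    have := mul_le_mul_of_nonneg_left e2.1 (show 0 ≤ 1 + ε by linarith)
    linarith [e1.2]
  -- bounds
  obtain ⟨η1, hη1, hb⟩ := hcmp 1 1 one_pos one_pos
  obtain ⟨B, hB⟩ : ∃ B : ℝ, B = (1 + 1) * ((1 + 1) * J (η1 / 2) + 1) + 1 := ⟨_, rfl⟩
  have hB' : ∀ η, 0 < η → η < η1 → J η ≤ B := fun η g1 g2 => by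
    rw [hB]
    exact hb η (η1 / 2) g1 g2 (by linarith) (by linarith)
  have hB0 : 0 ≤ B := (hJ0 (η1 / 2) (by linarith)).trans (hB' _ (by linarith) (by linarith))
  -- the value of J converges
  have hcau : Cauchy (map J (𝓝[>] (0:ℝ))) := by
    rw [Metric.cauchy_iff]
    refine ⟨inferInstance, fun ρ hρ => ?_⟩
    obtain ⟨ε, hε⟩ : ∃ ε : ℝ, ε = min 1 (ρ / (4 * (3 * B + 3))) := ⟨_, rfl⟩
    have hε0 : 0 < ε := by rw [hε]; exact lt_min one_pos (by positivity)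
    have hε1 : ε ≤ 1 := by rw [hε]; exact min_le_left _ _
    have hε2 : ε * (3 * B + 3) ≤ ρ / 4 := by
      have h3 : ε ≤ ρ / (4 * (3 * B + 3)) := by rw [hε]; exact min_le_right _ _
      calc ε * (3 * B + 3) ≤ ρ / (4 * (3 * B + 3)) * (3 * B + 3) := by gcongr
        _ = ρ / 4 := by field_simp
    obtain ⟨η2, hη2, h⟩ := hcmp ε ε hε0 hε0
    refine ⟨J '' Set.Ioo 0 (min η1 η2), image_mem_map (Ioo_mem_nhdsGT (lt_min hη1 hη2)), ?_⟩
    rintro x ⟨η, hη, rfl⟩ y ⟨η', hη', rfl⟩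
    have key : ∀ a b : ℝ, 0 < a → a < min η1 η2 → 0 < b → b < min η1 η2 → J a - J b < ρ := by
      intro a b ha1 ha2 hb1 hb2
      have g1 := h a b ha1 (ha2.trans_le (min_le_right _ _)) hb1 (hb2.trans_le (min_le_right _ _))
      have g2 := hB' b hb1 (hb2.trans_le (min_le_left _ _))
      have g3 := hJ0 b hb1
      have g4 : (1 + ε) * ((1 + ε) * J b + ε) + ε - J b = ε * ((2 + ε) * J b + (2 + ε)) := by ring
      have g5 : ε * ((2 + ε) * J b + (2 + ε)) ≤ ε * (3 * B + 3) := by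
        refine mul_le_mul_of_nonneg_left ?_ hε0.le
        nlinarith
      linarith
    rw [Real.dist_eq, abs_lt]
    constructor
    · linarith [key η' η hη'.1 hη'.2 hη.1 hη.2]
    · exact key η η' hη.1 hη.2 hη'.1 hη'.2
  obtain ⟨L, hL⟩ := cauchy_map_iff_exists_tendsto.mp hcau
  refine ⟨L, hL, ?_⟩
  -- bound for M
  obtain ⟨η3, hη3, hb3⟩ := h2 1 1 one_pos one_pos
  have hMB : ∃ B' : ℝ, 0 < B' ∧ ∀ᶠ T in atTop, M T ≤ B' := by
    have e1 := hb3 (η3 / 2) (by linarith) (by linarith)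
    have e2 := (h1 (η3 / 2) (by linarith)).eventually (gt_mem_nhds (show J (η3 / 2) < J (η3 / 2) + 1 by linarith))
    refine ⟨2 * (J (η3 / 2) + 1) + 1, by have := hJ0 (η3 / 2) (by linarith); linarith, ?_⟩
    filter_upwards [e1, e2] with T f1 f2
    linarith [f1.1]
  obtain ⟨B', hB'0, hMB⟩ := hMB
  rw [Metric.tendsto_nhds]
  intro ρ hρ
  obtain ⟨ε, hε⟩ : ∃ ε : ℝ, ε = min 1 (ρ / (8 * (B + B' + 3))) := ⟨_, rfl⟩
  have hBB : 0 < B + B' + 3 := by linarith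
  have hε0 : 0 < ε := by rw [hε]; exact lt_min one_pos (by positivity)
  have hε2 : ε * (B + B' + 3) ≤ ρ / 8 := by
    have h3 : ε ≤ ρ / (8 * (B + B' + 3)) := by rw [hε]; exact min_le_right _ _
    calc ε * (B + B' + 3) ≤ ρ / (8 * (B + B' + 3)) * (B + B' + 3) := by gcongr
      _ = ρ / 8 := by field_simp
  obtain ⟨η2, hη2, h⟩ := h2 ε ε hε0 hε0
  have hL2 := Metric.tendsto_nhds.mp hL (ρ / 8) (by positivity)
  have hsmall : ∀ᶠ η in 𝓝[>] (0:ℝ), 0 < η ∧ η < min η1 η2 := by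
    filter_upwards [Ioo_mem_nhdsGT (lt_min hη1 hη2)] with η hη using hη
  obtain ⟨η, hη, hηL⟩ := (hsmall.and hL2).exists
  have hN2 := Metric.tendsto_nhds.mp (h1 η hη.1) (min 1 (ρ / 8)) (lt_min one_pos (by positivity))
  have hJB := hB' η hη.1 (hη.2.trans_le (min_le_left _ _))
  filter_upwards [h η hη.1 (hη.2.trans_le (min_le_right _ _)), hN2, hMB, hM] with T g1 g2 g3 g4
  rw [Real.dist_eq, abs_lt] at hηL ⊢
  rw [Real.dist_eq, abs_lt] at g2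
  have m1 : min 1 (ρ / 8) ≤ 1 := min_le_left _ _
  have m2 : min 1 (ρ / 8) ≤ ρ / 8 := min_le_right _ _
  have e1 : N η T ≤ B + 1 := by linarith [g2.2]
  have e2 : ε * N η T ≤ ε * (B + 1) := mul_le_mul_of_nonneg_left e1 hε0.le
  have e3 : ε * M T ≤ ε * B' := mul_le_mul_of_nonneg_left g3 hε0.le
  have e4 : ε * (B + B' + 3) = ε * (B + 1) + ε * B' + 2 * ε := by ring
  have e5 : 0 ≤ ε * B' := by positivity
  have e6 : 0 ≤ ε * (B + 1) := by positivity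
  constructor
  · have := g1.2
    linarith [g2.1, hηL.1]
  · have := g1.1
    linarith [g2.2, hηL.2]

end Pool.Agent.T6.H6.MA
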