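import Pool.Agent.T6.H6.MA.Rect
import Pool.Agent.R313.CX.X

/-!
# Integrals of the exponential of the field over a vertical segment
-/

set_option autoImplicit false

open MeasureTheory Filter Topology

namespace Pool.Agent.T6.H6.MA

open Complex (I)
open Pool.Agent.R313.CX (gp gp_prod fs fs_meas ft ft_cont ft_norm ft_hasSum gs gs_cont gs_norm gs_exp St St_exp xa xa_nonneg
  fld fld_good fld_bound hp hp_psi psi_norm radK re_one_ne)

/-- the Laplace transform of the series at one point -/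
lemma fs_law {z : ℂ} (hz : ‖z‖ < 1) (α β : ℂ) :
    Integrable (fun ω => Complex.exp (α * fs ω z + β * (starRingEnd ℂ) (fs ω z))) gp ∧
    ∫ ω, Complex.exp (α * fs ω z + β * (starRingEnd ℂ) (fs ω z)) ∂gp =
      Complex.exp (α * β * ((-Real.log (1 - ‖z‖ ^ 2) : ℝ) : ℂ)) := by
  obtain ⟨q, hqz⟩ : ∃ q : ℝ, q = ‖z‖ := ⟨_, rfl⟩
  have hq : 0 ≤ q := by rw [hqz]; exact norm_nonneg _
  have hq1 : q < 1 := by rw [hqz]; exact hz
  have hzq : ‖z‖ ≤ q := hqz.ge
  obtain ⟨C, hC⟩ : ∃ C : ℝ, C = ‖α‖ + ‖β‖ := ⟨_, rfl⟩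
  have hC0 : 0 ≤ C := by rw [hC]; positivity
  obtain ⟨hgood, hSi⟩ := St_exp (s := C + 1) hq hq1 (by positivity)
  obtain ⟨c, hc⟩ : ∃ c : ℕ → ℂ, ∀ m, c m = z ^ (m + 1) / ((Real.sqrt ((m:ℝ) + 1) : ℝ) : ℂ) := ⟨fun m => _, fun _ => rfl⟩
  have hft : ∀ (ω : ℕ → ℝ × ℝ) (m : ℕ), ft ω z m = c m * gs (ω m) := by
    intro ω m
    rw [hc]
    unfold ft
    ring
  obtain ⟨A, hA⟩ : ∃ A : ℕ → ℂ, ∀ m, A m = α * c m := ⟨_, fun _ => rfl⟩
  obtain ⟨B, hB⟩ : ∃ B : ℕ → ℂ, ∀ m, B m = β * (starRingEnd ℂ) (c m) := ⟨_, fun _ => rfl⟩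
  have hterm : ∀ (ω : ℕ → ℝ × ℝ) (m : ℕ), α * ft ω z m + β * (starRingEnd ℂ) (ft ω z m) =
      A m * gs (ω m) + B m * (starRingEnd ℂ) (gs (ω m)) := by
    intro ω m
    rw [hA, hB, hft, map_mul]
    ring
  have htb : ∀ (ω : ℕ → ℝ × ℝ) (m : ℕ), ‖A m * gs (ω m) + B m * (starRingEnd ℂ) (gs (ω m))‖ ≤ C * (q ^ m * xa (ω m)) := by
    intro ω m
    rw [← hterm, hC]
    refine (norm_add_le _ _).trans ?_
    rw [norm_mul, norm_mul, Complex.norm_conj, ← add_mul]
    exact mul_le_mul_of_nonneg_left (ft_norm hq hq1.le hzq ω m) (by positivity)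
  obtain ⟨F, hF⟩ : ∃ F : ℕ → (ℕ → ℝ × ℝ) → ℂ, ∀ N ω, F N ω =
      Complex.exp (∑ m ∈ Finset.range N, (A m * gs (ω m) + B m * (starRingEnd ℂ) (gs (ω m)))) :=
    ⟨fun N ω => _, fun _ _ => rfl⟩
  have hFc : ∀ N, Continuous (F N) := by
    intro N
    have e1 : F N = fun ω => Complex.exp (∑ m ∈ Finset.range N, (A m * gs (ω m) + B m * (starRingEnd ℂ) (gs (ω m)))) := funext (hF N)
    rw [e1]
    refine Complex.continuous_exp.comp (continuous_finsetSum _ fun m _ => ?_)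
    exact ((gs_cont.comp (continuous_apply m)).const_mul _).add ((Complex.continuous_conj.comp (gs_cont.comp (continuous_apply m))).const_mul _)
  have hint : ∀ N, ∫ ω, F N ω ∂gp = Complex.exp (∑ m ∈ Finset.range N, A m * B m) := by
    intro N
    have e1 : ∀ ω, F N ω = ∏ m ∈ Finset.range N, Complex.exp (A m * gs (ω m) + B m * (starRingEnd ℂ) (gs (ω m))) := by
      intro ω
      rw [hF, Complex.exp_sum]
    simp_rw [e1]
    rw [gp_prod N (fun m x => Complex.exp (A m * gs x + B m * (starRingEnd ℂ) (gs x))) (fun m =>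
      Complex.continuous_exp.comp ((gs_cont.const_mul _).add ((Complex.continuous_conj.comp gs_cont).const_mul _))),
      Complex.exp_sum]
    exact Finset.prod_congr rfl fun m _ => gs_exp (A m) (B m)
  have hbd : ∀ N, ∀ᵐ ω ∂gp, ‖F N ω‖ ≤ Real.exp ((C + 1) * St q ω) := by
    intro N
    filter_upwards [hgood] with ω hω
    have hS : 0 ≤ St q ω := tsum_nonneg fun m => mul_nonneg (pow_nonneg hq m) (xa_nonneg _)
    rw [hF, Complex.norm_exp]
    refine Real.exp_le_exp.mpr ?_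
    refine (Complex.re_le_norm _).trans ((norm_sum_le _ _).trans ((Finset.sum_le_sum fun m _ => htb ω m).trans ?_))
    rw [← Finset.mul_sum]
    have h1 : ∑ m ∈ Finset.range N, q ^ m * xa (ω m) ≤ St q ω := hω.sum_le_tsum _ fun m _ => mul_nonneg (pow_nonneg hq m) (xa_nonneg _)
    have h2 := mul_le_mul_of_nonneg_left h1 hC0
    linarith
  have hpt : ∀ᵐ ω ∂gp, Tendsto (fun N => F N ω) atTop (𝓝 (Complex.exp (α * fs ω z + β * (starRingEnd ℂ) (fs ω z)))) := by
    filter_upwards [hgood] with ω hω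
    have h1 : HasSum (fun m => A m * gs (ω m) + B m * (starRingEnd ℂ) (gs (ω m)))
        (α * fs ω z + β * (starRingEnd ℂ) (fs ω z)) := by
      have h3 := ft_hasSum hq hq1.le hzq hω
      have h4 : HasSum (fun m => (starRingEnd ℂ) (ft ω z m)) ((starRingEnd ℂ) (fs ω z)) :=
        h3.map (starRingEnd ℂ) Complex.continuous_conj
      have h2 := (h3.mul_left α).add (h4.mul_left β)
      simp_rw [hterm] at h2
      exact h2
    have h5 := (Complex.continuous_exp.tendsto _).comp h1.tendsto_sum_nat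
    refine h5.congr fun N => ?_
    rw [hF]
    rfl
  have hmeas : AEStronglyMeasurable (fun ω => Complex.exp (α * fs ω z + β * (starRingEnd ℂ) (fs ω z))) gp :=
    aestronglyMeasurable_of_tendsto_ae atTop (fun N => (hFc N).aestronglyMeasurable) hpt
  have hlimF : Tendsto (fun N => ∫ ω, F N ω ∂gp) atTop (𝓝 (∫ ω, Complex.exp (α * fs ω z + β * (starRingEnd ℂ) (fs ω z)) ∂gp)) :=
    tendsto_integral_of_dominated_convergence (fun ω => Real.exp ((C + 1) * St q ω)) (fun N => (hFc N).aestronglyMeasurable)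
      hSi hbd hpt
  have hAB : HasSum (fun m => A m * B m) (α * β * ((-Real.log (1 - ‖z‖ ^ 2) : ℝ) : ℂ)) := by
    have h1 : HasSum (fun m : ℕ => (‖z‖ ^ 2) ^ (m + 1) / ((m:ℝ) + 1)) (-Real.log (1 - ‖z‖ ^ 2)) := by
      refine Real.hasSum_pow_div_log_of_abs_lt_one ?_
      rw [abs_of_nonneg (by positivity)]
      have := norm_nonneg z
      nlinarith
    have h2 := (Complex.hasSum_ofReal.mpr h1).mul_left (α * β)
    have e1 : (fun m => A m * B m) = fun m : ℕ => α * β * (((‖z‖ ^ 2) ^ (m + 1) / ((m:ℝ) + 1) : ℝ) : ℂ) := by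
      funext m
      rw [hA, hB, hc, map_div₀, map_pow, Complex.conj_ofReal]
      have hs : (((Real.sqrt ((m:ℝ) + 1) : ℝ) : ℂ)) * ((Real.sqrt ((m:ℝ) + 1) : ℝ) : ℂ) = (m:ℂ) + 1 := by
        rw [← Complex.ofReal_mul, Real.mul_self_sqrt (by positivity)]
        push_cast
        rfl
      have hs0 : ((Real.sqrt ((m:ℝ) + 1) : ℝ) : ℂ) ≠ 0 := by
        have : Real.sqrt ((m:ℝ) + 1) ≠ 0 := by positivity
        exact_mod_cast this
      have hzz : z * (starRingEnd ℂ) z = ((‖z‖ ^ 2 : ℝ) : ℂ) := by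
        rw [Complex.mul_conj, Complex.normSq_eq_norm_sq]
      have hm0 : ((m:ℂ) + 1) ≠ 0 := by
        rw [← hs]
        exact mul_ne_zero hs0 hs0
      push_cast
      rw [← hs]
      have h3 : (((‖z‖ : ℝ) : ℂ) ^ 2) ^ (m + 1) = z ^ (m + 1) * (starRingEnd ℂ) z ^ (m + 1) := by
        rw [← mul_pow, hzz]
        push_cast
        rfl
      rw [h3]
      field_simp
    rw [e1]
    exact h2
  have hlim2 : Tendsto (fun N => ∫ ω, F N ω ∂gp) atTop (𝓝 (Complex.exp (α * β * ((-Real.log (1 - ‖z‖ ^ 2) : ℝ) : ℂ)))) := by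
    simp_rw [hint]
    exact (Complex.continuous_exp.tendsto _).comp hAB.tendsto_sum_nat
  refine ⟨⟨hmeas, ?_⟩, tendsto_nhds_unique hlimF hlim2⟩
  refine (hSi.hasFiniteIntegral).mono ?_
  filter_upwards [ae_all_iff.mpr hbd, hpt] with ω h1 h2
  rw [Real.norm_of_nonneg (Real.exp_pos _).le]
  exact le_of_tendsto h2.norm (Eventually.of_forall h1)

/-- the size of the conformal image -/
lemma one_sub_psi {w : ℂ} (hw : 0 < w.re) : 1 - ‖(w - 1) / (w + 1)‖ ^ 2 = 4 * w.re / ‖w + 1‖ ^ 2 := by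
  have h1 := re_one_ne hw
  have h2 : ‖w + 1‖ ≠ 0 := norm_ne_zero_iff.mpr h1
  rw [norm_div, div_pow, eq_div_iff (by positivity), sub_mul, div_mul_cancel₀ _ (by positivity), one_mul,
    ← Complex.normSq_eq_norm_sq, ← Complex.normSq_eq_norm_sq, Complex.normSq_apply, Complex.normSq_apply]
  simp
  ring

/-- the mean of the exponential of the field -/
lemma fld_mean (k : ℝ) {w : ℂ} (hw : 0 < w.re) :
    ∫ ω, Complex.exp (fld k ω w) ∂gp = Complex.exp (-(k * Complex.log ((1 + w) / 2))) := by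
  obtain ⟨-, h⟩ := fs_law (psi_norm hw) 1 0
  have e : ∀ ω, Complex.exp (fld k ω w) = Complex.exp (-(k * Complex.log ((1 + w) / 2))) *
      Complex.exp (1 * fs ω ((w - 1) / (w + 1)) + 0 * (starRingEnd ℂ) (fs ω ((w - 1) / (w + 1)))) := by
    intro ω
    unfold fld
    rw [← Complex.exp_add]
    congr 1
    ring
  simp_rw [e]
  rw [integral_const_mul, h]
  simp

/-- the size of the mean -/
lemma mean_norm {k : ℝ} (hk : 0 ≤ k) (hk2 : k ≤ 2) {w : ℂ} (hw : 0 < w.re) :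
    ‖Complex.exp (-(k * Complex.log ((1 + w) / 2)))‖ ≤ 4 := by
  rw [Complex.norm_exp]
  have h1 : (-((k:ℂ) * Complex.log ((1 + w) / 2))).re = -(k * Real.log ‖(1 + w) / 2‖) := by
    rw [Complex.neg_re, Complex.re_ofReal_mul, Complex.log_re]
  rw [h1]
  have h2 : 1 / 2 ≤ ‖(1 + w) / 2‖ := by
    have h3 := Complex.re_le_norm ((1 + w) / 2)
    have h4 : ((1 + w) / 2).re = (1 + w.re) / 2 := by simp
    rw [h4] at h3
    linarith
  have h3 : -Real.log 2 ≤ Real.log ‖(1 + w) / 2‖ := by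
    rw [← Real.log_inv]
    exact Real.log_le_log (by norm_num) (by linarith)
  have h4 : 0 < Real.log 2 := Real.log_pos (by norm_num)
  have h5 : -(k * Real.log ‖(1 + w) / 2‖) ≤ 2 * Real.log 2 := by nlinarith
  calc Real.exp (-(k * Real.log ‖(1 + w) / 2‖)) ≤ Real.exp (2 * Real.log 2) := Real.exp_le_exp.mpr h5
    _ = 4 := by
        rw [show 2 * Real.log 2 = Real.log 2 + Real.log 2 by ring, Real.exp_add, Real.exp_log (by norm_num)]
        norm_num

/-- the second moment of the exponential of the field -/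
lemma fld_sq {k : ℝ} (hk : 0 ≤ k) (hk2 : k ≤ 2) {w : ℂ} (hw : 0 < w.re) :
    Integrable (fun ω => ‖Complex.exp (fld k ω w)‖ ^ 2) gp ∧
    ∫ ω, ‖Complex.exp (fld k ω w)‖ ^ 2 ∂gp ≤ 4 * ‖w + 1‖ ^ 2 / w.re := by
  have hψ := psi_norm hw
  obtain ⟨h1, h2⟩ := fs_law hψ 1 1
  obtain ⟨ψ, hψd⟩ : ∃ ψ : ℂ, ψ = (w - 1) / (w + 1) := ⟨_, rfl⟩
  obtain ⟨M, hM⟩ : ∃ M : ℝ, M = ‖Complex.exp (-(k * Complex.log ((1 + w) / 2)))‖ := ⟨_, rfl⟩
  have hM4 : M ≤ 4 := by rw [hM]; exact mean_norm hk hk2 hw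
  have hM0 : 0 ≤ M := by rw [hM]; exact norm_nonneg _
  have e : ∀ ω, ‖Complex.exp (fld k ω w)‖ ^ 2 = M ^ 2 * (Complex.exp (1 * fs ω ψ + 1 * (starRingEnd ℂ) (fs ω ψ))).re := by
    intro ω
    unfold fld
    rw [Complex.exp_add, norm_mul, mul_pow, ← hM, ← hψd]
    congr 1
    have e2 : 1 * fs ω ψ + 1 * (starRingEnd ℂ) (fs ω ψ) = ((2 * (fs ω ψ).re : ℝ) : ℂ) := by
      rw [one_mul, one_mul, Complex.add_conj]
    rw [e2, ← Complex.ofReal_exp, Complex.ofReal_re, Complex.norm_exp, pow_two, ← Real.exp_add]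
    congr 1
    ring
  rw [← hψd] at h1 h2 hψ
  refine ⟨?_, ?_⟩
  · simp_rw [e]
    exact h1.re.const_mul _
  · simp_rw [e]
    rw [integral_const_mul]
    have h3 : ∫ ω, (Complex.exp (1 * fs ω ψ + 1 * (starRingEnd ℂ) (fs ω ψ))).re ∂gp = (1 - ‖ψ‖ ^ 2)⁻¹ := by
      have h4 := integral_re h1
      rw [h2] at h4
      have h5 : 0 < 1 - ‖ψ‖ ^ 2 := by
        have := norm_nonneg ψ
        nlinarith
      refine (Eq.trans h4 ?_)
      rw [mul_one, one_mul, ← Complex.ofReal_exp, Real.exp_neg, Real.exp_log h5]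
      exact Complex.ofReal_re _
    rw [h3, hψd, one_sub_psi hw, inv_div]
    have h6 : M ^ 2 ≤ 16 := by nlinarith
    calc M ^ 2 * (‖w + 1‖ ^ 2 / (4 * w.re)) ≤ 16 * (‖w + 1‖ ^ 2 / (4 * w.re)) := by gcongr
      _ = _ := by field_simp; ring

/-- joint measurability along a path -/
lemma fld_jm {p : ℝ → ℂ} (hp : Continuous p) (hre : ∀ x, 0 < (p x).re) (k : ℝ) (μ : Measure ℝ) [SFinite μ] :
    AEStronglyMeasurable (fun q : (ℕ → ℝ × ℝ) × ℝ => Complex.exp (fld k q.1 (p q.2))) (gp.prod μ) := by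
  have hψ : Continuous fun x => (p x - 1) / (p x + 1) :=
    (hp.sub continuous_const).div (hp.add continuous_const) fun x => re_one_ne (hre x)
  have hlog : Continuous fun x => Complex.log ((1 + p x) / 2) := by
    refine Continuous.clog (by fun_prop) fun x => ?_
    left
    have h3 : ((1 + p x) / 2).re = (1 + (p x).re) / 2 := by simp
    rw [h3]
    linarith [hre x]
  have hc : ∀ N : ℕ, Continuous fun q : (ℕ → ℝ × ℝ) × ℝ =>
      Complex.exp (-(k * Complex.log ((1 + p q.2) / 2)) + ∑ m ∈ Finset.range N, ft q.1 ((p q.2 - 1) / (p q.2 + 1)) m) := by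
    intro N
    refine Complex.continuous_exp.comp (Continuous.add ?_ (continuous_finsetSum _ fun m _ => ?_))
    · exact ((hlog.comp continuous_snd).const_mul _).neg
    · unfold ft
      exact ((((hψ.comp continuous_snd).pow _).mul (gs_cont.comp ((continuous_apply m).comp continuous_fst))).div_const _)
  refine aestronglyMeasurable_of_tendsto_ae atTop (fun N => (hc N).aestronglyMeasurable) ?_
  have hg : ∀ᵐ q : (ℕ → ℝ × ℝ) × ℝ ∂(gp.prod μ), ∀ w : ℂ, 0 < w.re →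
      Summable (fun m => ‖ft q.1 ((w - 1) / (w + 1)) m‖) ∧ DifferentiableAt ℂ (fld k q.1) w :=
    Measure.quasiMeasurePreserving_fst.ae (fld_good k)
  filter_upwards [hg] with q hq
  have h1 := (hq (p q.2) (hre _)).1.of_norm.hasSum.tendsto_sum_nat
  have h2 := (Complex.continuous_exp.tendsto _).comp (h1.const_add (-(k * Complex.log ((1 + p q.2) / 2))))
  exact h2

/-- a uniform bound along a path -/
lemma fld_path {p : ℝ → ℂ} (hp' : Continuous p) (hre : ∀ x, 0 < (p x).re) (k a b : ℝ) :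
    ∃ L q : ℝ, 0 ≤ q ∧ q < 1 ∧ ∀ ω, Summable (fun m => q ^ m * xa (ω m)) → ∀ x ∈ Set.Icc a b,
      ‖Complex.exp (fld k ω (p x))‖ ≤ Real.exp (L + St q ω) := by
  obtain ⟨r, hr0, hr1, hr⟩ := radK (isCompact_Icc.image hp' : IsCompact (p '' Set.Icc a b)) (by
    rintro w ⟨x, -, rfl⟩
    exact hre x)
  obtain ⟨L, -, hL⟩ := fld_bound (k := k) (R := r) (q := (r + 1) / 2) (by linarith) (by linarith) (by linarith)
  refine ⟨L, (r + 1) / 2, by linarith, by linarith, fun ω hω x hx => ?_⟩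
  have h1 := hL ω hω _ (hr (p x) ⟨x, hx, rfl⟩)
  rwa [hp_psi (hre x)] at h1

end Pool.Agent.T6.H6.MA
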