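import Pool.Agent.T6.H6.MA.Field

/-!
# Moments of the integral of the exponential of the field over a vertical segment
-/

set_option autoImplicit false

open MeasureTheory Filter Topology

namespace Pool.Agent.T6.H6.MA

open Complex (I)
open Pool.Agent.R313.CX (gp St St_exp xa xa_nonneg fld fld_good)

/-- integrability on the product -/
lemma prod_int {E : Type*} [NormedAddCommGroup E] {G : (ℕ → ℝ × ℝ) × ℝ → E} {a b q c C : ℝ}
    (hG : AEStronglyMeasurable G (gp.prod (volume.restrict (Set.Ioc a b)))) (hq : 0 ≤ q) (hq1 : q < 1) (hc : 0 < c)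
    (hb : ∀ ω, Summable (fun m => q ^ m * xa (ω m)) → ∀ x ∈ Set.Icc a b, ‖G (ω, x)‖ ≤ C * Real.exp (c * St q ω)) :
    Integrable G (gp.prod (volume.restrict (Set.Ioc a b))) := by
  obtain ⟨hgood, hSi⟩ := St_exp (s := c) hq hq1 hc
  have h1 : Integrable (fun p : (ℕ → ℝ × ℝ) × ℝ => C * Real.exp (c * St q p.1)) (gp.prod (volume.restrict (Set.Ioc a b))) :=
    (hSi.const_mul C).comp_fst _
  refine h1.mono' hG ?_
  have h2 : ∀ᵐ p : (ℕ → ℝ × ℝ) × ℝ ∂(gp.prod (volume.restrict (Set.Ioc a b))), Summable (fun m => q ^ m * xa (p.1 m)) :=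
    Measure.quasiMeasurePreserving_fst.ae hgood
  have h3 : ∀ᵐ p : (ℕ → ℝ × ℝ) × ℝ ∂(gp.prod (volume.restrict (Set.Ioc a b))), p.2 ∈ Set.Ioc a b :=
    Measure.quasiMeasurePreserving_snd.ae (ae_restrict_mem measurableSet_Ioc)
  filter_upwards [h2, h3] with p g1 g2
  exact hb p.1 g1 p.2 (Set.Ioc_subset_Icc_self g2)

/-- the second moment of the integral over a path -/
lemma path_sq {k : ℝ} (hk : 0 ≤ k) (hk2 : k ≤ 2) {p : ℝ → ℂ} (hp : Continuous p) (hre : ∀ x, 0 < (p x).re) {a b : ℝ}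
    (hab : a < b) {s : ℝ → ℝ} (hs : Continuous s) (hs0 : ∀ x, 0 < s x) :
    Integrable (fun ω => (∫ x in a..b, ‖Complex.exp (fld k ω (p x))‖) ^ 2) gp ∧
    ∫ ω, (∫ x in a..b, ‖Complex.exp (fld k ω (p x))‖) ^ 2 ∂gp ≤
      (∫ x in a..b, s x) * ∫ x in a..b, (4 * ‖p x + 1‖ ^ 2 / (p x).re) / s x := by
  obtain ⟨L, q, hq, hq1, hL⟩ := fld_path hp hre k a b
  have hjm := fld_jm hp hre k (volume.restrict (Set.Ioc a b))
  obtain ⟨D, hD⟩ := isCompact_Icc.exists_bound_of_continuousOn (s := Set.Icc a b) (f := fun x => (s x)⁻¹)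
    (hs.inv₀ fun x => (hs0 x).ne').continuousOn
  have hi1 : Integrable (fun q : (ℕ → ℝ × ℝ) × ℝ => ‖Complex.exp (fld k q.1 (p q.2))‖) (gp.prod (volume.restrict (Set.Ioc a b))) := by
    refine prod_int (q := q) (c := 1) (C := Real.exp L) hjm.norm hq hq1 one_pos fun ω hω x hx => ?_
    rw [norm_norm, one_mul, ← Real.exp_add]
    exact hL ω hω x hx
  have hi2 : Integrable (fun q : (ℕ → ℝ × ℝ) × ℝ => ‖Complex.exp (fld k q.1 (p q.2))‖ ^ 2 / s q.2) (gp.prod (volume.restrict (Set.Ioc a b))) := by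
    refine prod_int (q := q) (c := 2) (C := Real.exp (2 * L) * D) ?_ hq hq1 two_pos fun ω hω x hx => ?_
    · simp only [div_eq_mul_inv]
      exact (hjm.norm.pow 2).mul (((hs.inv₀ fun x => (hs0 x).ne').comp continuous_snd).aestronglyMeasurable)
    · have h1 := hL ω hω x hx
      have h2 := hD x hx
      rw [norm_div, norm_pow, norm_norm, div_eq_mul_inv, ← norm_inv]
      have h3 : ‖Complex.exp (fld k ω (p x))‖ ^ 2 ≤ Real.exp (2 * L) * Real.exp (2 * St q ω) := by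
        calc ‖Complex.exp (fld k ω (p x))‖ ^ 2 ≤ Real.exp (L + St q ω) ^ 2 := by gcongr
          _ = _ := by rw [pow_two, ← Real.exp_add, ← Real.exp_add]; congr 1; ring
      calc ‖Complex.exp (fld k ω (p x))‖ ^ 2 * ‖(s x)⁻¹‖ ≤ (Real.exp (2 * L) * Real.exp (2 * St q ω)) * D := by
            refine mul_le_mul h3 h2 (norm_nonneg _) (by positivity)
        _ = _ := by ring
  have hS0 : 0 ≤ ∫ x in a..b, s x := intervalIntegral.integral_nonneg hab.le fun x _ => (hs0 x).le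
  have hpt : ∀ᵐ ω ∂gp, (∫ x in a..b, ‖Complex.exp (fld k ω (p x))‖) ^ 2 ≤
      (∫ x in a..b, s x) * ∫ x in Set.Ioc a b, ‖Complex.exp (fld k ω (p x))‖ ^ 2 / s x := by
    filter_upwards [fld_good k] with ω hω
    rw [← intervalIntegral.integral_of_le hab.le]
    refine cs_weight hab ?_ hs.continuousOn fun x _ => hs0 x
    intro x _
    have h1 := (hω (p x) (hre x)).2.continuousAt
    have h2 : ContinuousAt (fun x => fld k ω (p x)) x := ContinuousAt.comp (f := p) (g := fld k ω) h1 hp.continuousAt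
    exact h2.cexp.norm.continuousWithinAt
  have hQi := hi2.integral_prod_left
  have hmeas : AEStronglyMeasurable (fun ω => (∫ x in a..b, ‖Complex.exp (fld k ω (p x))‖) ^ 2) gp := by
    have h1 := hi1.integral_prod_left.aestronglyMeasurable.pow 2
    simp_rw [intervalIntegral.integral_of_le hab.le]
    exact h1
  have hint : Integrable (fun ω => (∫ x in a..b, ‖Complex.exp (fld k ω (p x))‖) ^ 2) gp := by
    refine (hQi.const_mul (∫ x in a..b, s x)).mono' hmeas ?_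
    filter_upwards [hpt] with ω hω
    rw [Real.norm_of_nonneg (sq_nonneg _)]
    exact hω
  refine ⟨hint, ?_⟩
  have h1 : ∫ ω, (∫ x in a..b, ‖Complex.exp (fld k ω (p x))‖) ^ 2 ∂gp ≤
      ∫ ω, ((∫ x in a..b, s x) * ∫ x in Set.Ioc a b, ‖Complex.exp (fld k ω (p x))‖ ^ 2 / s x) ∂gp :=
    integral_mono_ae hint (hQi.const_mul _) hpt
  rw [integral_const_mul] at h1
  refine h1.trans (mul_le_mul_of_nonneg_left ?_ hS0)
  rw [integral_integral_swap hi2, intervalIntegral.integral_of_le hab.le]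
  have hcb : Continuous fun x => (4 * ‖p x + 1‖ ^ 2 / (p x).re) / s x := by
    refine ((continuous_const.mul ((hp.add continuous_const).norm.pow 2)).div (Complex.continuous_re.comp hp) fun x => (hre x).ne').div hs
      fun x => (hs0 x).ne'
  refine setIntegral_mono_on hi2.integral_prod_right (hcb.integrableOn_Icc.mono_set Set.Ioc_subset_Icc_self) measurableSet_Ioc fun x _ => ?_
  obtain ⟨f1, f2⟩ := fld_sq hk hk2 (hre x)
  show ∫ ω, ‖Complex.exp (fld k ω (p x))‖ ^ 2 / s x ∂gp ≤ _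
  rw [integral_div]
  exact div_le_div_of_nonneg_right f2 (hs0 x).le

/-- the integral of the exponential of the field over a vertical segment -/
noncomputable def Xe (k η : ℝ) (ω : ℕ → ℝ × ℝ) : ℂ := ∫ y in (0:ℝ)..1, Complex.exp (fld k ω ((η : ℂ) + (y : ℂ) * I))

lemma pv_cont (η : ℝ) : Continuous fun y : ℝ => (η : ℂ) + (y : ℂ) * I := by fun_prop

lemma pv_re {η : ℝ} (hη : 0 < η) (y : ℝ) : 0 < ((η : ℂ) + (y : ℂ) * I).re := by simpa using hη

/-- the mean of the integral -/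
lemma Xe_mean (k : ℝ) {η : ℝ} (hη : 0 < η) : Integrable (Xe k η) gp ∧
    ∫ ω, Xe k η ω ∂gp = ∫ y in (0:ℝ)..1, Complex.exp (-(k * Complex.log ((1 + ((η : ℂ) + (y : ℂ) * I)) / 2))) := by
  obtain ⟨L, q, hq, hq1, hL⟩ := fld_path (pv_cont η) (pv_re hη) k 0 1
  have hi : Integrable (fun q : (ℕ → ℝ × ℝ) × ℝ => Complex.exp (fld k q.1 ((η : ℂ) + (q.2 : ℂ) * I))) (gp.prod (volume.restrict (Set.Ioc 0 1))) := by
    refine prod_int (q := q) (c := 1) (C := Real.exp L) (fld_jm (pv_cont η) (pv_re hη) k _) hq hq1 one_pos fun ω hω x hx => ?_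
    rw [one_mul, ← Real.exp_add]
    exact hL ω hω x hx
  have e : Xe k η = fun ω => ∫ y in Set.Ioc (0:ℝ) 1, Complex.exp (fld k ω ((η : ℂ) + (y : ℂ) * I)) := by
    funext ω
    unfold Xe
    rw [intervalIntegral.integral_of_le zero_le_one]
  rw [e]
  refine ⟨hi.integral_prod_left, ?_⟩
  rw [integral_integral_swap hi, intervalIntegral.integral_of_le zero_le_one]
  refine integral_congr_ae (Eventually.of_forall fun y => ?_)
  exact fld_mean k (pv_re hη y)

/-- powers of the integral are integrable -/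
lemma Xe_pow_int (k : ℝ) {η β : ℝ} (hη : 0 < η) (hβ : 0 < β) : Integrable (fun ω => ‖Xe k η ω‖ ^ β) gp := by
  obtain ⟨L, q, hq, hq1, hL⟩ := fld_path (pv_cont η) (pv_re hη) k 0 1
  obtain ⟨hgood, hSi⟩ := St_exp (s := β) hq hq1 hβ
  refine (hSi.const_mul (Real.exp (β * L))).mono' ?_ ?_
  · exact (continuous_id.rpow_const fun _ => Or.inr hβ.le).comp_aestronglyMeasurable (Xe_mean k hη).1.aestronglyMeasurable.norm
  · filter_upwards [hgood] with ω hω
    rw [Real.norm_of_nonneg (by positivity), ← Real.exp_add, ← mul_add, mul_comm β, Real.exp_mul]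
    refine Real.rpow_le_rpow (norm_nonneg _) ?_ hβ.le
    have h1 := intervalIntegral.norm_integral_le_of_norm_le_const (a := 0) (b := 1) (C := Real.exp (L + St q ω))
      (f := fun y : ℝ => Complex.exp (fld k ω ((η : ℂ) + (y : ℂ) * I))) (fun y hy => by
        rw [Set.uIoc_of_le zero_le_one] at hy
        exact hL ω hω y (Set.Ioc_subset_Icc_self hy))
    rw [sub_zero, abs_one, mul_one] at h1
    exact h1

/-- the second moments are uniformly bounded -/
theorem Xe_sq {k : ℝ} (hk : 0 ≤ k) (hk2 : k ≤ 2) {η : ℝ} (hη : 0 < η) (hη1 : η < 1) :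
    Integrable (fun ω => ‖Xe k η ω‖ ^ 2) gp ∧ ∫ ω, ‖Xe k η ω‖ ^ 2 ∂gp ≤ 600 := by
  have hw : ∀ x : ℝ, 0 < η + max x 0 := fun x => by
    have := le_max_right x 0
    linarith
  -- the weight
  obtain ⟨s, hs⟩ : ∃ s : ℝ → ℝ, ∀ x, s x = (η + max x 0) ^ (-(1 / 2) : ℝ) := ⟨_, fun _ => rfl⟩
  have hsc : Continuous s := by
    have e : s = fun x => (η + max x 0) ^ (-(1 / 2) : ℝ) := funext hs
    rw [e]
    exact (by fun_prop : Continuous fun x : ℝ => η + max x 0).rpow_const fun x => Or.inl (hw x).ne'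
  have hs0 : ∀ x, 0 < s x := fun x => by rw [hs]; exact Real.rpow_pos_of_pos (hw x) _
  have h1η : 0 < 1 - η := by linarith
  have hsI : ∫ x in (0:ℝ)..(1 - η), s x ≤ 2 := by
    have e1 : ∫ x in (0:ℝ)..(1 - η), s x = ∫ x in (0:ℝ)..(1 - η), (η + x) ^ (-(1 / 2) : ℝ) := by
      refine intervalIntegral.integral_congr fun x hx => ?_
      rw [Set.uIcc_of_le h1η.le] at hx
      show s x = _
      rw [hs, max_eq_left hx.1]
    rw [e1, intervalIntegral.integral_comp_add_left (fun x => x ^ (-(1 / 2) : ℝ)) η, add_zero, add_sub_cancel,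
      integral_rpow (Or.inl (by norm_num))]
    have h3 : 0 < η ^ (-(1 / 2) + 1 : ℝ) := Real.rpow_pos_of_pos hη _
    rw [Real.one_rpow]
    rw [div_le_iff₀ (by norm_num)]
    linarith
  -- the horizontal paths
  obtain ⟨P, hP⟩ : ∃ P : ℝ → ℝ → ℂ, ∀ b x, P b x = ((η + max x 0 : ℝ) : ℂ) + (b : ℂ) * I := ⟨_, fun _ _ => rfl⟩
  have hPc : ∀ b, Continuous (P b) := fun b => by
    have e : P b = fun x => ((η + max x 0 : ℝ) : ℂ) + (b : ℂ) * I := funext (hP b)
    rw [e]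
    fun_prop
  have hPre : ∀ b x, (P b x).re = η + max x 0 := fun b x => by rw [hP]; simp
  have hPre0 : ∀ b x, 0 < (P b x).re := fun b x => by rw [hPre]; exact hw x
  have hPn : ∀ b x, 0 ≤ b → b ≤ 1 → 0 ≤ x → x ≤ 1 - η → ‖P b x + 1‖ ^ 2 ≤ 5 := by
    intro b x hb hb1 hx hx1
    rw [← Complex.normSq_eq_norm_sq, Complex.normSq_apply, hP]
    rw [max_eq_left hx]
    simp
    nlinarith
  have hH : ∀ b : ℝ, 0 ≤ b → b ≤ 1 → Integrable (fun ω => (∫ x in (0:ℝ)..(1 - η), ‖Complex.exp (fld k ω (P b x))‖) ^ 2) gp ∧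
      ∫ ω, (∫ x in (0:ℝ)..(1 - η), ‖Complex.exp (fld k ω (P b x))‖) ^ 2 ∂gp ≤ 80 := by
    intro b hb hb1
    obtain ⟨f1, f2⟩ := path_sq hk hk2 (hPc b) (hPre0 b) h1η hsc hs0
    refine ⟨f1, f2.trans ?_⟩
    have g1 : ∫ x in (0:ℝ)..(1 - η), (4 * ‖P b x + 1‖ ^ 2 / (P b x).re) / s x ≤ ∫ x in (0:ℝ)..(1 - η), 20 * s x := by
      refine intervalIntegral.integral_mono_on h1η.le ?_ ?_ fun x hx => ?_
      · refine Continuous.intervalIntegrable ?_ _ _
        exact ((continuous_const.mul (((hPc b).add continuous_const).norm.pow 2)).div (Complex.continuous_re.comp (hPc b))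
          fun x => (hPre0 b x).ne').div hsc fun x => (hs0 x).ne'
      · exact (hsc.const_mul _).intervalIntegrable _ _
      · rw [hPre, hs]
        have h2 := hPn b x hb hb1 hx.1 hx.2
        have h3 := hw x
        obtain ⟨v, hv⟩ : ∃ v : ℝ, v = η + max x 0 := ⟨_, rfl⟩
        rw [← hv] at h3 ⊢
        rw [div_div, div_le_iff₀ (by positivity)]
        have h4 : v ^ (-(1 / 2) : ℝ) * v ^ (-(1 / 2) : ℝ) = v⁻¹ := by
          rw [← Real.rpow_add h3, ← Real.rpow_neg_one]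
          norm_num
        calc 4 * ‖P b x + 1‖ ^ 2 ≤ 20 := by linarith
          _ = 20 * (v⁻¹ * v) := by rw [inv_mul_cancel₀ h3.ne']; ring
          _ = 20 * v ^ (-(1 / 2) : ℝ) * (v * v ^ (-(1 / 2) : ℝ)) := by rw [← h4]; ring
    rw [intervalIntegral.integral_const_mul] at g1
    have g0 : 0 ≤ ∫ x in (0:ℝ)..(1 - η), s x := intervalIntegral.integral_nonneg h1η.le fun x _ => (hs0 x).le
    calc (∫ x in (0:ℝ)..(1 - η), s x) * ∫ x in (0:ℝ)..(1 - η), (4 * ‖P b x + 1‖ ^ 2 / (P b x).re) / s x ≤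
        2 * (20 * 2) := by
          refine mul_le_mul hsI (g1.trans (by linarith)) ?_ (by norm_num)
          refine intervalIntegral.integral_nonneg h1η.le fun x _ => ?_
          have := hPre0 b x
          have := hs0 x
          positivity
      _ = 80 := by norm_num
  obtain ⟨a1, a2⟩ := hH 0 le_rfl zero_le_one
  obtain ⟨b1, b2⟩ := hH 1 zero_le_one le_rfl
  -- the far vertical segment
  obtain ⟨c1, c2⟩ := path_sq hk hk2 (pv_cont 1) (pv_re one_pos) (zero_lt_one' ℝ) (s := fun _ => 1) continuous_const fun _ => one_pos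
  have c3 : ∫ ω, (∫ x in (0:ℝ)..1, ‖Complex.exp (fld k ω (((1:ℝ) : ℂ) + (x : ℂ) * I))‖) ^ 2 ∂gp ≤ 20 := by
    refine c2.trans ?_
    rw [intervalIntegral.integral_const, smul_eq_mul, sub_zero, one_mul, one_mul]
    have g1 : ∫ x in (0:ℝ)..1, (4 * ‖(((1:ℝ) : ℂ) + (x : ℂ) * I) + 1‖ ^ 2 / (((1:ℝ) : ℂ) + (x : ℂ) * I).re) / 1 ≤ ∫ _x in (0:ℝ)..1, (20:ℝ) := by
      refine intervalIntegral.integral_mono_on zero_le_one ?_ (continuous_const.intervalIntegrable _ _) fun x hx => ?_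
      · refine Continuous.intervalIntegrable ?_ _ _
        refine Continuous.div (Continuous.div (by fun_prop) (by fun_prop) fun x => ?_) continuous_const fun _ => one_ne_zero
        simp
      · have e1 : (((1:ℝ) : ℂ) + (x : ℂ) * I).re = 1 := by simp
        have e2 : ‖(((1:ℝ) : ℂ) + (x : ℂ) * I) + 1‖ ^ 2 = 4 + x ^ 2 := by
          rw [← Complex.normSq_eq_norm_sq, Complex.normSq_apply]
          simp
          ring
        rw [e1, e2]
        have := hx.1
        have := hx.2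
        simp only [div_one]
        nlinarith
    refine g1.trans ?_
    rw [intervalIntegral.integral_const, smul_eq_mul, sub_zero, one_mul]
  have hpt : ∀ᵐ ω ∂gp, ‖Xe k η ω‖ ^ 2 ≤ 3 * ((∫ x in (0:ℝ)..1, ‖Complex.exp (fld k ω (((1:ℝ) : ℂ) + (x : ℂ) * I))‖) ^ 2 +
      (∫ x in (0:ℝ)..(1 - η), ‖Complex.exp (fld k ω (P 0 x))‖) ^ 2 + (∫ x in (0:ℝ)..(1 - η), ‖Complex.exp (fld k ω (P 1 x))‖) ^ 2) := by
    filter_upwards [fld_good k] with ω hω
    have h1 := rect (f := fun w => Complex.exp (fld k ω w)) (x0 := η) (r := 1 - η) (t := 0) (h := 1) h1η.le (fun z hz _ =>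
      ((hω z (by linarith)).2).cexp)
    have e1 : ∫ y in (0:ℝ)..1, Complex.exp (fld k ω ((η : ℂ) + ((0 + y : ℝ) : ℂ) * I)) = Xe k η ω := by
      unfold Xe
      simp_rw [zero_add]
    have e2 : ∀ (b : ℝ), ∫ x in (0:ℝ)..(1 - η), ‖Complex.exp (fld k ω (((η + x : ℝ) : ℂ) + (b : ℂ) * I))‖ =
        ∫ x in (0:ℝ)..(1 - η), ‖Complex.exp (fld k ω (P b x))‖ := by
      intro b
      refine intervalIntegral.integral_congr fun x hx => ?_
      rw [Set.uIcc_of_le h1η.le] at hx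
      show ‖Complex.exp (fld k ω (((η + x : ℝ) : ℂ) + (b : ℂ) * I))‖ = ‖Complex.exp (fld k ω (P b x))‖
      rw [hP, max_eq_left hx.1]
    have e3 : ∫ y in (0:ℝ)..1, Complex.exp (fld k ω (((η + (1 - η) : ℝ) : ℂ) + ((0 + y : ℝ) : ℂ) * I)) = Xe k 1 ω := by
      unfold Xe
      simp_rw [zero_add, add_sub_cancel]
    rw [e1, e3, e2, e2, zero_add] at h1
    have h2 : ‖Xe k 1 ω‖ ≤ ∫ x in (0:ℝ)..1, ‖Complex.exp (fld k ω (((1:ℝ) : ℂ) + (x : ℂ) * I))‖ :=
      intervalIntegral.norm_integral_le_integral_norm zero_le_one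
    obtain ⟨A, hA⟩ : ∃ A : ℝ, A = ∫ x in (0:ℝ)..1, ‖Complex.exp (fld k ω (((1:ℝ) : ℂ) + (x : ℂ) * I))‖ := ⟨_, rfl⟩
    obtain ⟨B, hB⟩ : ∃ B : ℝ, B = ∫ x in (0:ℝ)..(1 - η), ‖Complex.exp (fld k ω (P 0 x))‖ := ⟨_, rfl⟩
    obtain ⟨C, hC⟩ : ∃ C : ℝ, C = ∫ x in (0:ℝ)..(1 - η), ‖Complex.exp (fld k ω (P 1 x))‖ := ⟨_, rfl⟩
    rw [← hB, ← hC] at h1
    rw [← hA] at h2
    rw [← hA, ← hB, ← hC]
    have h3 : ‖Xe k η ω‖ ≤ A + B + C := by
      have h4 := norm_add_le (Xe k η ω - Xe k 1 ω) (Xe k 1 ω)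
      rw [sub_add_cancel] at h4
      linarith
    calc ‖Xe k η ω‖ ^ 2 ≤ (A + B + C) ^ 2 := by gcongr
      _ ≤ _ := by nlinarith [sq_nonneg (A - B), sq_nonneg (A - C), sq_nonneg (B - C)]
  have hmeas : AEStronglyMeasurable (fun ω => ‖Xe k η ω‖ ^ 2) gp := (Xe_mean k hη).1.aestronglyMeasurable.norm.pow 2
  have hdom := ((c1.add a1).add b1).const_mul 3
  have hint : Integrable (fun ω => ‖Xe k η ω‖ ^ 2) gp := by
    refine hdom.mono' hmeas ?_
    filter_upwards [hpt] with ω hω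
    rw [Real.norm_of_nonneg (by positivity)]
    exact hω
  refine ⟨hint, (integral_mono_ae hint hdom hpt).trans ?_⟩
  rw [integral_const_mul, integral_add' (c1.add a1) b1, integral_add' c1 a1]
  linarith

/-- the argument in a sector -/
lemma arg_sector {u : ℂ} (h : 0 < u.re) (h1 : |u.im| ≤ u.re) : |Complex.arg u| ≤ Real.pi / 4 := by
  have h2 : |Complex.arg u| < Real.pi / 2 := Complex.abs_arg_lt_pi_div_two_iff.mpr (Or.inl h)
  obtain ⟨h3, h4⟩ := abs_lt.mp h2
  have h5 : Complex.arg u = Real.arctan (u.im / u.re) := by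
    rw [← Complex.tan_arg, Real.arctan_tan h3 h4]
  rw [h5, abs_le]
  obtain ⟨h6, h7⟩ := abs_le.mp h1
  constructor
  · rw [← Real.arctan_one, ← Real.arctan_neg]
    refine Real.arctan_strictMono.monotone ?_
    rw [le_div_iff₀ h]
    linarith
  · rw [← Real.arctan_one]
    refine Real.arctan_strictMono.monotone ?_
    rw [div_le_iff₀ h]
    linarith

/-- the real part of the mean -/
lemma mean_re {k : ℝ} (hk : 0 < k) (hk2 : k < 2) {η y : ℝ} (hη : 0 < η) (hη1 : η ≤ 1) (hy : 0 ≤ y) (hy1 : y ≤ 1) :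
    Real.exp (-2) * Real.cos (k * (Real.pi / 4)) ≤ (Complex.exp (-(k * Complex.log ((1 + ((η : ℂ) + (y : ℂ) * I)) / 2)))).re := by
  obtain ⟨u, hu⟩ : ∃ u : ℂ, u = (1 + ((η : ℂ) + (y : ℂ) * I)) / 2 := ⟨_, rfl⟩
  have hre : u.re = (1 + η) / 2 := by rw [hu]; simp
  have him : u.im = y / 2 := by rw [hu]; simp
  rw [← hu]
  have h0 : 0 < u.re := by rw [hre]; linarith
  have h1 := arg_sector h0 (by rw [hre, him, abs_of_nonneg (by linarith)]; linarith)
  have hun : ‖u‖ ≤ 2 := by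
    have := Complex.norm_le_abs_re_add_abs_im u
    rw [hre, him, abs_of_nonneg (by linarith), abs_of_nonneg (by linarith)] at this
    linarith
  have hun0 : 0 < ‖u‖ := norm_pos_iff.mpr fun h => by rw [h] at h0; simp at h0
  have e1 : (-((k:ℂ) * Complex.log u)).re = -(k * Real.log ‖u‖) := by
    rw [Complex.neg_re, Complex.re_ofReal_mul, Complex.log_re]
  have e2 : (-((k:ℂ) * Complex.log u)).im = -(k * Complex.arg u) := by
    rw [Complex.neg_im, Complex.im_ofReal_mul, Complex.log_im]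
  rw [Complex.exp_re, e1, e2, Real.cos_neg]
  have hpi := Real.pi_pos
  have h2 : Real.cos (k * (Real.pi / 4)) ≤ Real.cos (k * Complex.arg u) := by
    rw [← Real.cos_abs (k * Complex.arg u), abs_mul, abs_of_pos hk]
    refine Real.cos_le_cos_of_nonneg_of_le_pi (by positivity) ?_ (by gcongr)
    nlinarith
  have h3 : 0 ≤ Real.cos (k * (Real.pi / 4)) := by
    refine Real.cos_nonneg_of_neg_pi_div_two_le_of_le ?_ ?_
    · have : 0 < k * (Real.pi / 4) := by positivity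
      linarith
    · nlinarith
  have h4 : Real.exp (-2) ≤ Real.exp (-(k * Real.log ‖u‖)) := by
    refine Real.exp_le_exp.mpr ?_
    have h5 : Real.log ‖u‖ ≤ 1 := by
      have := Real.log_le_sub_one_of_pos hun0
      linarith
    nlinarith
  exact mul_le_mul h4 h2 h3 (Real.exp_pos _).le

/-- the moments of the integral are bounded below -/
theorem Xe_low {k : ℝ} (hk : 0 < k) (hk2 : k < 2) : ∃ c : ℝ, 0 < c ∧ ∀ η : ℝ, 0 < η → η < 1 → c ≤ ∫ ω, ‖Xe k η ω‖ ^ (2 * k) ∂gp := by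
  have hpi := Real.pi_pos
  obtain ⟨c0, hc0⟩ : ∃ c0 : ℝ, c0 = Real.exp (-2) * Real.cos (k * (Real.pi / 4)) := ⟨_, rfl⟩
  have hc0' : 0 < c0 := by
    rw [hc0]
    refine mul_pos (Real.exp_pos _) (Real.cos_pos_of_mem_Ioo ⟨?_, ?_⟩)
    · have : 0 < k * (Real.pi / 4) := by positivity
      linarith
    · nlinarith
  have hEX : ∀ η : ℝ, 0 < η → η < 1 → c0 ≤ ∫ ω, ‖Xe k η ω‖ ∂gp := by
    intro η hη hη1
    obtain ⟨h1, h2⟩ := Xe_mean k hη
    have h3 : c0 ≤ (∫ ω, Xe k η ω ∂gp).re := by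
      rw [h2]
      have hlog : Continuous fun y : ℝ => Complex.exp (-(k * Complex.log ((1 + ((η : ℂ) + (y : ℂ) * I)) / 2))) := by
        refine Complex.continuous_exp.comp (Continuous.neg (Continuous.const_mul (Continuous.clog (by fun_prop) fun y => ?_) _) )
        left
        have h3 : ((1 + ((η : ℂ) + (y : ℂ) * I)) / 2).re = (1 + η) / 2 := by simp
        rw [h3]
        linarith
      have h4 : (∫ y in (0:ℝ)..1, Complex.exp (-(k * Complex.log ((1 + ((η : ℂ) + (y : ℂ) * I)) / 2)))).re =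
          ∫ y in (0:ℝ)..1, (Complex.exp (-(k * Complex.log ((1 + ((η : ℂ) + (y : ℂ) * I)) / 2)))).re := by
        have := intervalIntegral.intervalIntegral_eq_integral_uIoc
          (fun y : ℝ => Complex.exp (-(k * Complex.log ((1 + ((η : ℂ) + (y : ℂ) * I)) / 2)))) 0 1 volume
        rw [intervalIntegral.integral_of_le zero_le_one, intervalIntegral.integral_of_le zero_le_one]
        exact (integral_re (hlog.integrableOn_Icc.mono_set Set.Ioc_subset_Icc_self)).symm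
      rw [h4]
      have h5 : ∫ _y in (0:ℝ)..1, c0 ≤ ∫ y in (0:ℝ)..1, (Complex.exp (-(k * Complex.log ((1 + ((η : ℂ) + (y : ℂ) * I)) / 2)))).re := by
        refine intervalIntegral.integral_mono_on zero_le_one (continuous_const.intervalIntegrable _ _)
          ((Complex.continuous_re.comp hlog).intervalIntegrable _ _) fun y hy => ?_
        rw [hc0]
        exact mean_re hk hk2 hη hη1.le hy.1 hy.2
      rwa [intervalIntegral.integral_const, smul_eq_mul, sub_zero, one_mul] at h5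
    exact h3.trans ((Complex.re_le_norm _).trans (norm_integral_le_integral_norm _))
  rcases le_or_gt 1 (2 * k) with hb | hb
  · obtain ⟨m, hm⟩ : ∃ m : ℝ, m = c0 / 2 := ⟨_, rfl⟩
    have hm0 : 0 < m := by rw [hm]; positivity
    refine ⟨m / m ^ (1 - 2 * k), by positivity, fun η hη hη1 => ?_⟩
    have hi := Xe_pow_int k (β := 2 * k) hη (by positivity)
    have hi1 : Integrable (fun ω => ‖Xe k η ω‖) gp := (Xe_mean k hη).1.norm
    have hpt : ∀ ω, ‖Xe k η ω‖ ≤ m + m ^ (1 - 2 * k) * ‖Xe k η ω‖ ^ (2 * k) := by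
      intro ω
      have hX := norm_nonneg (Xe k η ω)
      rcases le_or_gt ‖Xe k η ω‖ m with h | h
      · have : 0 ≤ m ^ (1 - 2 * k) * ‖Xe k η ω‖ ^ (2 * k) := by positivity
        linarith
      · have hX0 : 0 < ‖Xe k η ω‖ := hm0.trans h
        have e1 : ‖Xe k η ω‖ = ‖Xe k η ω‖ ^ (1 - 2 * k) * ‖Xe k η ω‖ ^ (2 * k) := by
          rw [← Real.rpow_add hX0, sub_add_cancel, Real.rpow_one]
        have e2 : ‖Xe k η ω‖ ^ (1 - 2 * k) ≤ m ^ (1 - 2 * k) := Real.rpow_le_rpow_of_nonpos hm0 h.le (by linarith)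
        have e3 : 0 ≤ ‖Xe k η ω‖ ^ (2 * k) := by positivity
        have e4 := mul_le_mul_of_nonneg_right e2 e3
        linarith
    have h1 : ∫ ω, ‖Xe k η ω‖ ∂gp ≤ ∫ ω, (m + m ^ (1 - 2 * k) * ‖Xe k η ω‖ ^ (2 * k)) ∂gp :=
      integral_mono hi1 ((integrable_const _).add (hi.const_mul _)) hpt
    rw [integral_add (integrable_const _) (hi.const_mul _), integral_const_mul, integral_const, probReal_univ, one_smul] at h1
    have h2 := hEX η hη hη1
    rw [div_le_iff₀ (by positivity)]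
    have : m = c0 - m := by rw [hm]; ring
    linarith
  · obtain ⟨M, hM⟩ : ∃ M : ℝ, M = 1200 / c0 := ⟨_, rfl⟩
    have hM0 : 0 < M := by rw [hM]; positivity
    refine ⟨(c0 / 2) / M ^ (1 - 2 * k), by positivity, fun η hη hη1 => ?_⟩
    have hi := Xe_pow_int k (β := 2 * k) hη (by positivity)
    have hi1 : Integrable (fun ω => ‖Xe k η ω‖) gp := (Xe_mean k hη).1.norm
    obtain ⟨hi2, hsq⟩ := Xe_sq hk.le hk2.le hη hη1
    have hpt : ∀ ω, ‖Xe k η ω‖ ≤ M ^ (1 - 2 * k) * ‖Xe k η ω‖ ^ (2 * k) + M⁻¹ * ‖Xe k η ω‖ ^ 2 := by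
      intro ω
      have hX := norm_nonneg (Xe k η ω)
      rcases le_or_gt ‖Xe k η ω‖ M with h | h
      · rcases hX.eq_or_lt with h0 | hX0
        · rw [← h0]
          positivity
        · have e1 : ‖Xe k η ω‖ = ‖Xe k η ω‖ ^ (1 - 2 * k) * ‖Xe k η ω‖ ^ (2 * k) := by
            rw [← Real.rpow_add hX0, sub_add_cancel, Real.rpow_one]
          have e2 : ‖Xe k η ω‖ ^ (1 - 2 * k) ≤ M ^ (1 - 2 * k) := Real.rpow_le_rpow hX h (by linarith)
          have e3 : 0 ≤ ‖Xe k η ω‖ ^ (2 * k) := by positivity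
          have e4 := mul_le_mul_of_nonneg_right e2 e3
          have e5 : 0 ≤ M⁻¹ * ‖Xe k η ω‖ ^ 2 := by positivity
          linarith
      · have e1 : ‖Xe k η ω‖ ≤ M⁻¹ * ‖Xe k η ω‖ ^ 2 := by
          rw [inv_mul_eq_div, le_div_iff₀ hM0]
          nlinarith
        have e2 : 0 ≤ M ^ (1 - 2 * k) * ‖Xe k η ω‖ ^ (2 * k) := by positivity
        linarith
    have h1 : ∫ ω, ‖Xe k η ω‖ ∂gp ≤ ∫ ω, (M ^ (1 - 2 * k) * ‖Xe k η ω‖ ^ (2 * k) + M⁻¹ * ‖Xe k η ω‖ ^ 2) ∂gp :=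
      integral_mono hi1 ((hi.const_mul _).add (hi2.const_mul _)) hpt
    rw [integral_add (hi.const_mul _) (hi2.const_mul _), integral_const_mul, integral_const_mul] at h1
    have h2 := hEX η hη hη1
    have h3 : M⁻¹ * ∫ ω, ‖Xe k η ω‖ ^ 2 ∂gp ≤ c0 / 2 := by
      calc M⁻¹ * ∫ ω, ‖Xe k η ω‖ ^ 2 ∂gp ≤ M⁻¹ * 600 := by gcongr
        _ = c0 / 2 := by rw [hM, inv_div]; ring
    rw [div_le_iff₀ (by positivity)]
    linarith

end Pool.Agent.T6.H6.MA
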