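import Pool.Agent.T6.H6.MA.Loc
import Pool.Agent.T6.H6.MA.Fld2
import Pool.Agent.T6.H6.MA.Cau

/-!
# Moments of the means of zeta over short intervals of the critical line
-/

set_option autoImplicit false

open MeasureTheory Filter Topology

namespace Pool.Agent.T6.H6.MA

open Complex (I)
open Pool.Agent.W184 (zn zn_nonneg zeta_diffAt)
open Pool.Agent.R313.FN (gz)
open Pool.Agent.R313.CX (gp fld fld_good rs rs_apply comp_lim)
open Pool.Agent.H306R2 (aF aF_pos)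

/-- the mean of zeta over a vertical segment -/
noncomputable def mB (r h t : ℝ) : ℂ :=
  (h : ℂ)⁻¹ * ∫ y in (0:ℝ)..h, riemannZeta (((1 / 2 + r : ℝ) : ℂ) + ((t + y : ℝ) : ℂ) * I)

lemma zl_cont' {r : ℝ} (hr : r < 1 / 2) : Continuous fun v : ℝ => riemannZeta (((1 / 2 + r : ℝ) : ℂ) + (v : ℂ) * I) := by
  rw [continuous_iff_continuousAt]
  intro v
  refine ContinuousAt.comp (f := fun v : ℝ => ((1 / 2 + r : ℝ) : ℂ) + (v : ℂ) * I) (zeta_diffAt ?_).continuousAt (by fun_prop)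
  rw [Complex.add_re, Complex.ofReal_re, Complex.mul_I_re, Complex.ofReal_im]
  linarith

lemma mB_cont {r : ℝ} (hr : r < 1 / 2) (h : ℝ) : Continuous (mB r h) := by
  unfold mB
  refine continuous_const.mul ?_
  refine intervalIntegral.continuous_parametric_intervalIntegral_of_continuous' ?_ _ _
  exact (zl_cont' hr).comp (continuous_fst.add continuous_snd)

/-- moving the segment to the critical line -/
lemma mB_diff {r h : ℝ} (hr : 0 ≤ r) (hr1 : r ≤ 1 / 16) (hh : 0 < h) (t : ℝ) :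
    ‖mB 0 h t - mB r h t‖ ≤ h⁻¹ * (Ar r t + Ar r (t + h)) := by
  have h1 := rect (f := riemannZeta) (x0 := 1 / 2) (r := r) (t := t) (h := h) hr (fun z _ hz => zeta_diffAt (by linarith))
  have e1 : ∀ v : ℝ, ∫ x in (0:ℝ)..r, ‖riemannZeta (((1 / 2 + x : ℝ) : ℂ) + (v : ℝ) * I)‖ = Ar r v := by
    intro v
    unfold Ar
    refine intervalIntegral.integral_congr fun x hx => ?_
    rw [Set.uIcc_of_le hr] at hx
    show _ = zc x v
    rw [zc_eq (hx.2.trans hr1)]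
    rfl
  rw [e1, e1] at h1
  unfold mB
  rw [← mul_sub, norm_mul, norm_inv, Complex.norm_real, Real.norm_of_nonneg hh.le]
  refine mul_le_mul_of_nonneg_left ?_ (by positivity)
  simp only [add_zero]
  exact h1

/-- the mean of the difference -/
theorem mB_dint {β : ℝ} (hβ : 0 < β) (hβ4 : β < 4) : ∃ C r0 : ℝ, 0 < C ∧ 0 < r0 ∧ r0 ≤ 1 / 16 ∧
    ∀ᶠ X : ℝ in atTop, ∀ h : ℝ, 0 < h → h ≤ 1 → ∀ η : ℝ, 0 < η → η * h ≤ r0 →
      (2 * h) ^ ((β / 2) ^ 2) / X * ∫ t in Set.Icc 0 X, ‖mB 0 h t - mB (η * h) h t‖ ^ β ≤ C * η ^ (β - (β / 2) ^ 2) := by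
  obtain ⟨C, r0, hC, hr0, hr0', h1⟩ := Ar_int hβ hβ4
  have h1' : ∀ᶠ X : ℝ in atTop, ∀ r : ℝ, 0 < r → r ≤ r0 →
      ∫ t in (0:ℝ)..(2 * X), Ar r t ^ β ≤ C * (2 * X) * r ^ (β - (β / 2) ^ 2) :=
    (tendsto_id.const_mul_atTop (show (0:ℝ) < 2 by norm_num)).eventually h1
  refine ⟨2 ^ ((β / 2) ^ 2) * (2 ^ β * (4 * C)), r0, by positivity, hr0, by linarith, ?_⟩
  filter_upwards [h1', eventually_ge_atTop (1:ℝ)] with X hX hX1 h hh hh1 η hη hηh
  have hX0 : 0 < X := by linarith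
  obtain ⟨r, hr⟩ : ∃ r : ℝ, r = η * h := ⟨_, rfl⟩
  have hr0p : 0 < r := by rw [hr]; positivity
  rw [← hr] at hηh ⊢
  have hAc : Continuous fun t => Ar r t ^ β := (Ar_cont r).rpow_const fun t => Or.inr hβ.le
  have hA0 : ∀ t, 0 ≤ Ar r t ^ β := fun t => Real.rpow_nonneg (Ar_nonneg hr0p.le t) _
  have hpt : ∀ t, ‖mB 0 h t - mB r h t‖ ^ β ≤ h ^ (-β) * (2 ^ β * (Ar r t ^ β + Ar r (t + h) ^ β)) := by
    intro t
    have g1 := mB_diff hr0p.le (by linarith) hh t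
    have g2 := Ar_nonneg hr0p.le t
    have g3 := Ar_nonneg hr0p.le (t + h)
    calc ‖mB 0 h t - mB r h t‖ ^ β ≤ (h⁻¹ * (Ar r t + Ar r (t + h))) ^ β := Real.rpow_le_rpow (norm_nonneg _) g1 hβ.le
      _ = h ^ (-β) * (Ar r t + Ar r (t + h)) ^ β := by
          rw [Real.mul_rpow (by positivity) (by positivity), Real.inv_rpow hh.le, Real.rpow_neg hh.le]
      _ ≤ _ := mul_le_mul_of_nonneg_left (rpow_add_le g2 g3 hβ) (by positivity)
  have hcd : Continuous fun t => ‖mB 0 h t - mB r h t‖ ^ β :=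
    (((mB_cont (by norm_num) h).sub (mB_cont (by linarith) h)).norm).rpow_const fun t => Or.inr hβ.le
  have hcA : Continuous fun t => Ar r (t + h) ^ β := hAc.comp (continuous_id.add continuous_const)
  have hI : ∫ t in Set.Icc 0 X, ‖mB 0 h t - mB r h t‖ ^ β ≤ h ^ (-β) * (2 ^ β * (2 * (C * (2 * X) * r ^ (β - (β / 2) ^ 2)))) := by
    rw [integral_Icc_eq_integral_Ioc, ← intervalIntegral.integral_of_le hX0.le]
    have g1 : ∫ t in (0:ℝ)..X, ‖mB 0 h t - mB r h t‖ ^ β ≤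
        ∫ t in (0:ℝ)..X, h ^ (-β) * (2 ^ β * (Ar r t ^ β + Ar r (t + h) ^ β)) :=
      intervalIntegral.integral_mono_on hX0.le (hcd.intervalIntegrable _ _)
        ((continuous_const.mul (continuous_const.mul (hAc.add hcA))).intervalIntegrable _ _) fun t _ => hpt t
    rw [intervalIntegral.integral_const_mul, intervalIntegral.integral_const_mul,
      intervalIntegral.integral_add (hAc.intervalIntegrable _ _) (hcA.intervalIntegrable _ _),
      intervalIntegral.integral_comp_add_right (fun t => Ar r t ^ β), zero_add] at g1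
    have g2 : ∫ t in (0:ℝ)..X, Ar r t ^ β ≤ ∫ t in (0:ℝ)..(2 * X), Ar r t ^ β :=
      intervalIntegral.integral_mono_interval le_rfl hX0.le (by linarith) (Eventually.of_forall fun t => hA0 t)
        (hAc.intervalIntegrable _ _)
    have g3 : ∫ t in h..(X + h), Ar r t ^ β ≤ ∫ t in (0:ℝ)..(2 * X), Ar r t ^ β :=
      intervalIntegral.integral_mono_interval hh.le (by linarith) (by linarith) (Eventually.of_forall fun t => hA0 t)
        (hAc.intervalIntegrable _ _)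
    have g4 := hX r hr0p hηh
    refine g1.trans (mul_le_mul_of_nonneg_left (mul_le_mul_of_nonneg_left (by linarith) (by positivity)) (by positivity))
  obtain ⟨κ, hκ⟩ : ∃ κ : ℝ, κ = (β / 2) ^ 2 := ⟨_, rfl⟩
  obtain ⟨θ, hθ⟩ : ∃ θ : ℝ, θ = β - κ := ⟨_, rfl⟩
  rw [← hκ, ← hθ] at hI ⊢
  have hW : 0 ≤ (2 * h) ^ κ / X := by positivity
  refine (mul_le_mul_of_nonneg_left hI hW).trans (le_of_eq ?_)
  have e1 : h ^ κ * h ^ (-β) * h ^ θ = 1 := by
    rw [← Real.rpow_add hh, ← Real.rpow_add hh, hθ]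
    rw [show κ + -β + (β - κ) = 0 by ring, Real.rpow_zero]
  rw [Real.mul_rpow (by norm_num) hh.le, hr, Real.mul_rpow hη.le hh.le]
  calc 2 ^ κ * h ^ κ / X * (h ^ (-β) * (2 ^ β * (2 * (C * (2 * X) * (η ^ θ * h ^ θ))))) =
      (2 ^ κ * (2 ^ β * (4 * C)) * η ^ θ) * (h ^ κ * h ^ (-β) * h ^ θ) * (X / X) := by ring
    _ = _ := by rw [e1, div_self hX0.ne']; ring

/-- the mean over a segment as a functional -/
noncomputable def Fn (K : Set ℂ) (p : ℝ → K) (k : ℝ) (f : C(K, ℂ)) : ℂ := ((‖∫ y in (0:ℝ)..1, f (p y)‖ ^ (2 * k) : ℝ) : ℂ)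

lemma Fn_cont {K : Set ℂ} (hK : IsCompact K) {p : ℝ → K} (hp : Continuous p) {k : ℝ} (hk : 0 < k) : Continuous (Fn K p k) := by
  have : CompactSpace K := isCompact_iff_compactSpace.mp hK
  unfold Fn
  refine Complex.continuous_ofReal.comp ?_
  refine (Continuous.norm ?_).rpow_const fun f => Or.inr (by positivity)
  refine intervalIntegral.continuous_parametric_intervalIntegral_of_continuous' ?_ _ _
  exact continuous_eval.comp (continuous_fst.prodMk (hp.comp continuous_snd))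

lemma Fn_smul {K : Set ℂ} (p : ℝ → K) (k : ℝ) (u : ℂ) (f : C(K, ℂ)) : Fn K p k (u • f) = ((‖u‖ ^ (2 * k) : ℝ) : ℂ) * Fn K p k f := by
  unfold Fn
  have e : ∫ y in (0:ℝ)..1, (u • f) (p y) = u * ∫ y in (0:ℝ)..1, f (p y) := by
    rw [← intervalIntegral.integral_const_mul]
    rfl
  rw [e, norm_mul, Real.mul_rpow (norm_nonneg _) (norm_nonneg _)]
  push_cast
  rfl

/-- the vertical segment -/
def Kv (η : ℝ) : Set ℂ := (fun y : ℝ => (η : ℂ) + (y : ℂ) * I) '' Set.Icc 0 1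

lemma Kv_compact (η : ℝ) : IsCompact (Kv η) := isCompact_Icc.image (pv_cont η)

lemma Kv_re {η : ℝ} (hη : 0 < η) : ∀ w ∈ Kv η, 0 < w.re := by
  rintro w ⟨y, -, rfl⟩
  exact pv_re hη y

/-- the parametrisation -/
noncomputable def pk (η : ℝ) (y : ℝ) : Kv η :=
  ⟨(η : ℂ) + ((Set.projIcc (0:ℝ) 1 zero_le_one y : ℝ) : ℂ) * I, ⟨_, (Set.projIcc (0:ℝ) 1 zero_le_one y).2, rfl⟩⟩

lemma pk_cont (η : ℝ) : Continuous (pk η) := by
  unfold pk
  refine Continuous.subtype_mk ?_ _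
  exact (pv_cont η).comp (continuous_subtype_val.comp continuous_projIcc)

lemma Fn_rs {η k : ℝ} {g : ℂ → ℂ} (hg : ContinuousOn g (Kv η)) :
    Fn (Kv η) (pk η) k (rs (Kv η) g) = ((‖∫ y in (0:ℝ)..1, g ((η : ℂ) + (y : ℂ) * I)‖ ^ (2 * k) : ℝ) : ℂ) := by
  have e : ∫ y in (0:ℝ)..1, rs (Kv η) g (pk η y) = ∫ y in (0:ℝ)..1, g ((η : ℂ) + (y : ℂ) * I) := by
    refine intervalIntegral.integral_congr fun y hy => ?_
    rw [Set.uIcc_of_le zero_le_one] at hy
    show rs (Kv η) g (pk η y) = g ((η : ℂ) + (y : ℂ) * I)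
    rw [rs_apply hg]
    unfold pk
    simp only
    rw [Set.projIcc_of_mem zero_le_one hy]
  unfold Fn
  rw [e]

lemma gz_mB {h η t : ℝ} (hh : 0 < h) : ∫ y in (0:ℝ)..1, gz h t ((η : ℂ) + (y : ℂ) * I) = mB (η * h) h t := by
  unfold mB gz
  obtain ⟨F, hF⟩ : ∃ F : ℝ → ℂ, ∀ v, F v = riemannZeta (((1 / 2 + η * h : ℝ) : ℂ) + ((t + v : ℝ) : ℂ) * I) := ⟨_, fun _ => rfl⟩
  have h1 := intervalIntegral.integral_comp_mul_left (a := 0) (b := 1) F hh.ne'
  rw [mul_zero, mul_one, Complex.real_smul, Complex.ofReal_inv] at h1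
  have h2 : ∫ y in (0:ℝ)..1, riemannZeta (1 / 2 + (t:ℂ) * I + (h:ℂ) * ((η : ℂ) + (y : ℂ) * I)) = ∫ y in (0:ℝ)..1, F (h * y) := by
    refine intervalIntegral.integral_congr fun y _ => ?_
    show riemannZeta (1 / 2 + (t:ℂ) * I + (h:ℂ) * ((η : ℂ) + (y : ℂ) * I)) = F (h * y)
    rw [hF]
    congr 1
    push_cast
    ring
  have h3 : ∫ y in (0:ℝ)..h, F y = ∫ y in (0:ℝ)..h, riemannZeta (((1 / 2 + η * h : ℝ) : ℂ) + ((t + y : ℝ) : ℂ) * I) :=
    intervalIntegral.integral_congr fun y _ => hF y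
  rw [h2, h1, h3]

/-- near the line -/
theorem near_lim {h : ℝ → ℝ} (hh : Tendsto h atTop (𝓝 0)) (hhL : Tendsto (fun T : ℝ => h T * Real.log T) atTop atTop)
    {k : ℝ} (hk : 0 < k) (hk2 : k ≤ 2) {η : ℝ} (hη : 0 < η) :
    Tendsto (fun T : ℝ => (2 * h T) ^ (k ^ 2) / T * ∫ t in Set.Icc 0 T, ‖mB (η * h T) (h T) t‖ ^ (2 * k)) atTop
      (𝓝 (aF k * ∫ ω, ‖Xe k η ω‖ ^ (2 * k) ∂gp)) := by
  obtain ⟨h1, h2⟩ := comp_lim hh hhL hk hk2 (Kv_compact η) (Kv_re hη)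
  obtain ⟨-, h3⟩ := h2 (Fn (Kv η) (pk η) k) (Fn_cont (Kv_compact η) (pk_cont η) hk) (Fn_smul _ _)
  have hpos : ∀ᶠ T in atTop, 0 < h T := by
    filter_upwards [hhL.eventually_gt_atTop 0, eventually_gt_atTop 1] with T hT hT1
    exact (pos_iff_pos_of_mul_pos hT).mpr (Real.log_pos hT1)
  have e1 : ∫ ω, Fn (Kv η) (pk η) k (rs (Kv η) (fun w => Complex.exp (fld k ω w))) ∂gp =
      ((∫ ω, ‖Xe k η ω‖ ^ (2 * k) ∂gp : ℝ) : ℂ) := by
    rw [← integral_complex_ofReal]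
    refine integral_congr_ae ?_
    filter_upwards [fld_good k] with ω hω
    have hc : ContinuousOn (fun w => Complex.exp (fld k ω w)) (Kv η) := fun w hw =>
      (hω w (Kv_re hη w hw)).2.cexp.continuousAt.continuousWithinAt
    rw [Fn_rs hc]
    rfl
  rw [e1] at h3
  have h4 := (Complex.continuous_re.tendsto _).comp h3
  have e2 : ((aF k : ℂ) * ((∫ ω, ‖Xe k η ω‖ ^ (2 * k) ∂gp : ℝ) : ℂ)).re = aF k * ∫ ω, ‖Xe k η ω‖ ^ (2 * k) ∂gp := by
    rw [← Complex.ofReal_mul, Complex.ofReal_re]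
  rw [e2] at h4
  refine h4.congr' ?_
  filter_upwards [h1, hpos] with T g1 g2
  show ((((2 * h T) ^ (k ^ 2) / T : ℝ) : ℂ) * ∫ t in Set.Icc 0 T, Fn (Kv η) (pk η) k (rs (Kv η) (gz (h T) t))).re = _
  have e3 : ∫ t in Set.Icc 0 T, Fn (Kv η) (pk η) k (rs (Kv η) (gz (h T) t)) =
      ((∫ t in Set.Icc 0 T, ‖mB (η * h T) (h T) t‖ ^ (2 * k) : ℝ) : ℂ) := by
    rw [← integral_complex_ofReal]
    refine integral_congr_ae (Eventually.of_forall fun t => ?_)
    show Fn (Kv η) (pk η) k (rs (Kv η) (gz (h T) t)) = _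
    rw [Fn_rs (g1 t), gz_mB g2]
  rw [e3, ← Complex.ofReal_mul, Complex.ofReal_re]

/-- the limit along one family of lengths -/
theorem path_lim {h : ℝ → ℝ} (hh : Tendsto h atTop (𝓝 0)) (hhL : Tendsto (fun T : ℝ => h T * Real.log T) atTop atTop)
    {k : ℝ} (hk : 0 < k) (hk2 : k < 2) : ∃ L : ℝ,
    Tendsto (fun η => aF k * ∫ ω, ‖Xe k η ω‖ ^ (2 * k) ∂gp) (𝓝[>] 0) (𝓝 L) ∧
    Tendsto (fun T : ℝ => (2 * h T) ^ (k ^ 2) / T * ∫ t in Set.Icc 0 T, ‖mB 0 (h T) t‖ ^ (2 * k)) atTop (𝓝 L) := by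
  have hpos : ∀ᶠ T in atTop, 0 < h T := by
    filter_upwards [hhL.eventually_gt_atTop 0, eventually_gt_atTop 1] with T hT hT1
    exact (pos_iff_pos_of_mul_pos hT).mpr (Real.log_pos hT1)
  -- replace h by a nonnegative function
  obtain ⟨g, hg⟩ : ∃ g : ℝ → ℝ, ∀ T, g T = max (h T) 0 := ⟨_, fun _ => rfl⟩
  have hg0 : ∀ T, 0 ≤ g T := fun T => by rw [hg]; exact le_max_right _ _
  have hgh : ∀ᶠ T in atTop, g T = h T := by
    filter_upwards [hpos] with T hT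
    rw [hg, max_eq_left hT.le]
  have key := two_lim (M := fun T => (2 * g T) ^ (k ^ 2) / T * ∫ t in Set.Icc 0 T, ‖mB 0 (g T) t‖ ^ (2 * k))
    (N := fun η T => (2 * g T) ^ (k ^ 2) / T * ∫ t in Set.Icc 0 T, ‖mB (η * g T) (g T) t‖ ^ (2 * k))
    (J := fun η => aF k * ∫ ω, ‖Xe k η ω‖ ^ (2 * k) ∂gp) ?_ ?_ ?_ ?_
  · obtain ⟨L, hL1, hL2⟩ := key
    refine ⟨L, hL1, hL2.congr' ?_⟩
    filter_upwards [hgh] with T hT
    rw [hT]
  · filter_upwards [eventually_gt_atTop (0:ℝ)] with T hT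
    have := hg0 T
    have h2 : 0 ≤ ∫ t in Set.Icc 0 T, ‖mB 0 (g T) t‖ ^ (2 * k) := integral_nonneg fun t => by positivity
    positivity
  · intro η T _ hT
    have := hg0 T
    have h2 : 0 ≤ ∫ t in Set.Icc 0 T, ‖mB (η * g T) (g T) t‖ ^ (2 * k) := integral_nonneg fun t => by positivity
    positivity
  · intro η hη
    refine (near_lim hh hhL hk hk2.le hη).congr' ?_
    filter_upwards [hgh] with T hT
    rw [hT]
  · intro ε δ hε hδ
    obtain ⟨C1, hC1, hpe⟩ := pow_eps (β := 2 * k) (ε := ε) (by positivity) hε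
    obtain ⟨C2, r0, hC2, hr0, hr0', hd⟩ := mB_dint (β := 2 * k) (by positivity) (by linarith)
    have hθ : 0 < 2 * k - (2 * k / 2) ^ 2 := by nlinarith
    -- choice of the threshold
    have hlim : Tendsto (fun η : ℝ => C1 * (C2 * η ^ (2 * k - (2 * k / 2) ^ 2))) (𝓝[>] 0) (𝓝 (C1 * (C2 * 0))) := by
      have h3 : Tendsto (fun η : ℝ => η ^ (2 * k - (2 * k / 2) ^ 2)) (𝓝[>] 0) (𝓝 0) := by
        have h4 : Tendsto (fun η : ℝ => η ^ (2 * k - (2 * k / 2) ^ 2)) (𝓝 0) (𝓝 ((0:ℝ) ^ (2 * k - (2 * k / 2) ^ 2))) :=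
          (Real.continuousAt_rpow_const 0 _ (Or.inr hθ.le)).tendsto
        rw [Real.zero_rpow hθ.ne'] at h4
        exact h4.mono_left nhdsWithin_le_nhds
      exact (h3.const_mul _).const_mul _
    rw [mul_zero, mul_zero] at hlim
    have h5 := hlim.eventually (gt_mem_nhds hδ)
    obtain ⟨η2, hη2, h6⟩ : ∃ η2 : ℝ, 0 < η2 ∧ ∀ η, 0 < η → η < η2 → C1 * (C2 * η ^ (2 * k - (2 * k / 2) ^ 2)) < δ := by
      rw [eventually_nhdsWithin_iff, Metric.eventually_nhds_iff] at h5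
      obtain ⟨η2, hη2, h7⟩ := h5
      refine ⟨η2, hη2, fun η g1 g2 => h7 ?_ g1⟩
      rw [Real.dist_eq, sub_zero, abs_of_pos g1]
      exact g2
    refine ⟨η2, hη2, fun η g1 g2 => ?_⟩
    have hsm : ∀ᶠ T in atTop, η * h T < r0 := by
      have h7 : Tendsto (fun T => η * h T) atTop (𝓝 (η * 0)) := hh.const_mul η
      rw [mul_zero] at h7
      exact h7.eventually (gt_mem_nhds hr0)
    filter_upwards [hd, hgh, hpos, hsm, hh.eventually (gt_mem_nhds one_pos), eventually_gt_atTop (0:ℝ)]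
      with T f1 f2 f3 f4 f5 f6
    rw [f2]
    have f7 := f1 (h T) f3 f5.le η g1 f4.le
    have f8 := h6 η g1 g2
    have hkk : (2 * k / 2) ^ 2 = k ^ 2 := by ring
    rw [hkk] at f7 f8
    obtain ⟨W, hW⟩ : ∃ W : ℝ, W = (2 * h T) ^ (k ^ 2) / T := ⟨_, rfl⟩
    have hW0 : 0 ≤ W := by rw [hW]; positivity
    rw [← hW] at f7 ⊢
    have hη16 : η * h T < 1 / 2 := by linarith
    have hcd : Continuous fun t => ‖mB 0 (h T) t - mB (η * h T) (h T) t‖ ^ (2 * k) :=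
      (((mB_cont (by norm_num) (h T)).sub (mB_cont hη16 (h T))).norm).rpow_const fun t => Or.inr (by positivity)
    have hc0 : Continuous fun t => ‖mB 0 (h T) t‖ ^ (2 * k) :=
      ((mB_cont (by norm_num) (h T)).norm).rpow_const fun t => Or.inr (by positivity)
    have hc1 : Continuous fun t => ‖mB (η * h T) (h T) t‖ ^ (2 * k) :=
      ((mB_cont hη16 (h T)).norm).rpow_const fun t => Or.inr (by positivity)
    have hgen : ∀ (a b : ℝ → ℝ), (∀ t, 0 ≤ a t) → (∀ t, 0 ≤ b t) → Continuous (fun t => a t ^ (2 * k)) → Continuous (fun t => b t ^ (2 * k)) →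
        (∀ t, a t ≤ b t + ‖mB 0 (h T) t - mB (η * h T) (h T) t‖) →
        W * ∫ t in Set.Icc 0 T, a t ^ (2 * k) ≤ (1 + ε) * (W * ∫ t in Set.Icc 0 T, b t ^ (2 * k)) + δ := by
      intro a b ha hb hac hbc hab
      have s1 : ∫ t in Set.Icc 0 T, a t ^ (2 * k) ≤
          ∫ t in Set.Icc 0 T, ((1 + ε) * b t ^ (2 * k) + C1 * ‖mB 0 (h T) t - mB (η * h T) (h T) t‖ ^ (2 * k)) := by
        refine setIntegral_mono_on hac.integrableOn_Icc ?_ measurableSet_Icc fun t _ => ?_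
        · exact ((continuous_const.mul hbc).add (continuous_const.mul hcd)).integrableOn_Icc
        · exact (Real.rpow_le_rpow (ha t) (hab t) (by positivity)).trans (hpe _ _ (hb t) (norm_nonneg _))
      have i1 : IntegrableOn (fun t => (1 + ε) * b t ^ (2 * k)) (Set.Icc 0 T) :=
        (hbc.integrableOn_Icc (a := 0) (b := T)).const_mul (1 + ε)
      have i2 : IntegrableOn (fun t => C1 * ‖mB 0 (h T) t - mB (η * h T) (h T) t‖ ^ (2 * k)) (Set.Icc 0 T) :=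
        (hcd.integrableOn_Icc (a := 0) (b := T)).const_mul C1
      rw [integral_add i1 i2, integral_const_mul, integral_const_mul] at s1
      have s2 := mul_le_mul_of_nonneg_left s1 hW0
      have s3 := mul_le_mul_of_nonneg_left f7 hC1.le
      calc _ ≤ _ := s2
        _ = (1 + ε) * (W * ∫ t in Set.Icc 0 T, b t ^ (2 * k)) +
            C1 * (W * ∫ t in Set.Icc 0 T, ‖mB 0 (h T) t - mB (η * h T) (h T) t‖ ^ (2 * k)) := by ring
        _ ≤ _ := by linarith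
    constructor
    · refine hgen (fun t => ‖mB 0 (h T) t‖) (fun t => ‖mB (η * h T) (h T) t‖) (fun t => norm_nonneg _) (fun t => norm_nonneg _) hc0 hc1 fun t => ?_
      have := norm_add_le (mB (η * h T) (h T) t) (mB 0 (h T) t - mB (η * h T) (h T) t)
      rwa [add_sub_cancel] at this
    · refine hgen (fun t => ‖mB (η * h T) (h T) t‖) (fun t => ‖mB 0 (h T) t‖) (fun t => norm_nonneg _) (fun t => norm_nonneg _) hc1 hc0 fun t => ?_
      have h9 := norm_sub_norm_le (mB (η * h T) (h T) t) (mB 0 (h T) t)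
      rw [norm_sub_rev] at h9
      linarith

/-- the limit, with its sign -/
theorem all_lim {k : ℝ} (hk : 0 < k) (hk2 : k < 2) : ∃ L : ℝ, 0 < L ∧
    Tendsto (fun η => ∫ ω, ‖Xe k η ω‖ ^ (2 * k) ∂gp) (𝓝[>] 0) (𝓝 L) ∧
    ∀ h : ℝ → ℝ, Tendsto h atTop (𝓝 0) → Tendsto (fun T : ℝ => h T * Real.log T) atTop atTop →
    Tendsto (fun T : ℝ => (2 * h T) ^ (k ^ 2) / T * ∫ t in Set.Icc 0 T, ‖mB 0 (h T) t‖ ^ (2 * k)) atTop (𝓝 (aF k * L)) := by
  have ha := aF_pos hk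
  obtain ⟨L, hL1, -⟩ := path_lim (h := fun T => (Real.log T) ^ (-(1 / 2) : ℝ)) (by
      exact (tendsto_rpow_neg_atTop (by norm_num)).comp Real.tendsto_log_atTop) (by
      have h1 : Tendsto (fun T : ℝ => (Real.log T) ^ (1 / 2 : ℝ)) atTop atTop :=
        (tendsto_rpow_atTop (by norm_num)).comp Real.tendsto_log_atTop
      refine h1.congr' ?_
      filter_upwards [Real.tendsto_log_atTop.eventually_gt_atTop 0] with T hT
      nth_rewrite 3 [← Real.rpow_one (Real.log T)]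
      rw [← Real.rpow_add hT]
      norm_num) hk hk2
  have hL2 : Tendsto (fun η => ∫ ω, ‖Xe k η ω‖ ^ (2 * k) ∂gp) (𝓝[>] 0) (𝓝 ((aF k)⁻¹ * L)) := by
    refine (hL1.const_mul (aF k)⁻¹).congr fun η => ?_
    rw [inv_mul_cancel_left₀ ha.ne']
  obtain ⟨c, hc, hlow⟩ := Xe_low hk hk2
  have hL3 : c ≤ (aF k)⁻¹ * L := by
    refine ge_of_tendsto hL2 ?_
    filter_upwards [Ioo_mem_nhdsGT (zero_lt_one' ℝ)] with η hη
    exact hlow η hη.1 hη.2
  refine ⟨(aF k)⁻¹ * L, lt_of_lt_of_le hc hL3, hL2, fun h hh hhL => ?_⟩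
  obtain ⟨L', hL1', hL2'⟩ := path_lim hh hhL hk hk2
  have : L' = L := tendsto_nhds_unique hL1' hL1
  rw [mul_inv_cancel_left₀ ha.ne', ← this]
  exact hL2'

end Pool.Agent.T6.H6.MA
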