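import Pool.Agent.T6.H6.MA.Ub

/-!
# The local mass of zeta next to the critical line
-/

set_option autoImplicit false

open MeasureTheory Set Filter Topology

namespace Pool.Agent.T6.H6.MA

open Complex (I)
open Pool.Agent.W184 (zn zn_nonneg zn_cont zn_le zn_le' zn_neg zeta_diffAt)
open Pool.Agent.R313.FN (rc rc_compact sup_le_area gz gz_diff gz_cont gz_ne UU UU_open)

/-- the absolute value of zeta to the right of the critical line, in a form which is jointly continuous -/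
noncomputable def zc (σ t : ℝ) : ℝ := zn (1 / 2 + min σ (1 / 16)) t

lemma zc_nonneg (σ t : ℝ) : 0 ≤ zc σ t := zn_nonneg _ _

lemma zc_eq {σ t : ℝ} (h : σ ≤ 1 / 16) : zc σ t = zn (1 / 2 + σ) t := by unfold zc; rw [min_eq_left h]

lemma zc_cont : Continuous fun q : ℝ × ℝ => zc q.1 q.2 := by
  unfold zc zn
  refine Continuous.norm ?_
  rw [continuous_iff_continuousAt]
  intro q
  have hne : ((((1 / 2 + min q.1 (1 / 16) : ℝ)) : ℂ) + (q.2 : ℂ) * I) ≠ 1 := by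
    intro h
    have h1 := congrArg Complex.re h
    have h2 : min q.1 (1 / 16 : ℝ) ≤ 1 / 16 := min_le_right _ _
    rw [Complex.add_re, Complex.ofReal_re, Complex.mul_I_re, Complex.ofReal_im, Complex.one_re] at h1
    linarith
  exact ContinuousAt.comp (f := fun q : ℝ × ℝ => (((1 / 2 + min q.1 (1 / 16) : ℝ)) : ℂ) + (q.2 : ℂ) * I)
    (differentiableAt_riemannZeta hne).continuousAt (by fun_prop)

lemma zc_le {σ t : ℝ} (h : 0 ≤ σ) : zc σ t ≤ 12 * (1 + |t|) := by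
  unfold zc
  have h1 : min σ (1 / 16) ≤ 1 / 16 := min_le_right _ _
  have h2 : 0 ≤ min σ (1 / 16 : ℝ) := le_min h (by norm_num)
  exact zn_le' (by linarith) (by linarith)

/-- the local mass on a horizontal segment starting at the critical line -/
noncomputable def Ar (r t : ℝ) : ℝ := ∫ σ in (0:ℝ)..r, zc σ t

/-- the mass of a dyadic segment -/
noncomputable def Bl (δ t : ℝ) : ℝ := ∫ σ in δ..(2 * δ), zc σ t

lemma Ar_cont (r : ℝ) : Continuous (Ar r) := by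
  unfold Ar
  refine intervalIntegral.continuous_parametric_intervalIntegral_of_continuous' ?_ _ _
  exact zc_cont.comp (continuous_snd.prodMk continuous_fst)

lemma Bl_cont (δ : ℝ) : Continuous (Bl δ) := by
  unfold Bl
  refine intervalIntegral.continuous_parametric_intervalIntegral_of_continuous' ?_ _ _
  exact zc_cont.comp (continuous_snd.prodMk continuous_fst)

lemma zc_ii (t a b : ℝ) : IntervalIntegrable (fun σ => zc σ t) volume a b := by
  have h : Continuous fun σ : ℝ => zc σ t := zc_cont.comp (continuous_id.prodMk continuous_const)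
  exact h.intervalIntegrable _ _

lemma Ar_nonneg {r : ℝ} (hr : 0 ≤ r) (t : ℝ) : 0 ≤ Ar r t :=
  intervalIntegral.integral_nonneg hr fun σ _ => zc_nonneg σ t

lemma Bl_nonneg {δ : ℝ} (hδ : 0 ≤ δ) (t : ℝ) : 0 ≤ Bl δ t :=
  intervalIntegral.integral_nonneg (by linarith) fun σ _ => zc_nonneg σ t

lemma Ar_le {r t X : ℝ} (hr : 0 ≤ r) (ht : |t| ≤ X) : Ar r t ≤ r * (12 * (1 + X)) := by
  have h : Ar r t ≤ ∫ _ in (0:ℝ)..r, 12 * (1 + X) := by
    unfold Ar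
    refine intervalIntegral.integral_mono_on hr (zc_ii t _ _) (continuous_const.intervalIntegrable _ _) fun σ hσ => ?_
    have := zc_le (t := t) hσ.1
    linarith
  rwa [intervalIntegral.integral_const, smul_eq_mul, sub_zero] at h

/-- the dyadic decomposition -/
lemma Ar_split (r t : ℝ) (J : ℕ) : Ar r t = (∑ j ∈ Finset.range J, Bl (r / 2 ^ (j + 1)) t) + Ar (r / 2 ^ J) t := by
  induction J with
  | zero => simp
  | succ J ih =>
    rw [ih, Finset.sum_range_succ, add_assoc]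
    congr 1
    unfold Ar Bl
    have e : 2 * (r / 2 ^ (J + 1)) = r / 2 ^ J := by rw [pow_succ]; field_simp
    rw [e, add_comm, intervalIntegral.integral_add_adjacent_intervals (zc_ii t _ _) (zc_ii t _ _)]

/-- the area integral -/
noncomputable def Ja (β δ t : ℝ) : ℝ := ∫ w in rc (1 / 2) (5 / 2) 1, ‖gz δ t w‖ ^ β

lemma Ja_nonneg (β δ t : ℝ) : 0 ≤ Ja β δ t := integral_nonneg fun w => by positivity

lemma rc_UU' : rc (1 / 2) (5 / 2) 1 ⊆ UU := by
  rintro w ⟨h1, h2, h3⟩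
  show w.re < 4
  linarith

lemma Ja_fub {β δ T : ℝ} (hβ : 0 < β) (hδ : 0 < δ) (hδ1 : δ ≤ 1 / 16) :
    IntegrableOn (Ja β δ) (Set.Icc 0 T) ∧
    IntegrableOn (fun w => ∫ t in Set.Icc 0 T, ‖gz δ t w‖ ^ β) (rc (1 / 2) (5 / 2) 1) ∧
    ∫ t in Set.Icc 0 T, Ja β δ t = ∫ w in rc (1 / 2) (5 / 2) 1, ∫ t in Set.Icc 0 T, ‖gz δ t w‖ ^ β := by
  have hK : IsCompact (Set.Icc 0 T ×ˢ rc (1 / 2) (5 / 2) 1) := isCompact_Icc.prod (rc_compact _ _ _)
  have hc : ContinuousOn (fun p : ℝ × ℂ => ‖gz δ p.1 p.2‖ ^ β) (Set.Icc 0 T ×ˢ rc (1 / 2) (5 / 2) 1) :=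
    (gz_cont hβ hδ hδ1).mono (Set.prod_mono (Set.subset_univ _) rc_UU')
  have hi := ContinuousOn.integrableOn_compact (μ := volume) hK hc
  rw [IntegrableOn, Measure.volume_eq_prod, ← Measure.prod_restrict] at hi
  exact ⟨hi.integral_prod_left, hi.integral_prod_right, integral_integral_swap hi⟩

lemma Bl_le {β : ℝ} (hβ : 0 < β) : ∃ C : ℝ, 0 < C ∧ ∀ δ : ℝ, 0 < δ → δ ≤ 1 / 32 → ∀ t : ℝ,
    Bl δ t ^ β ≤ C * δ ^ β * Ja β δ t := by
  obtain ⟨C, hC, h⟩ := sup_le_area hβ (a := 1) (b := 2) (a' := 1 / 2) (b' := 5 / 2) (B := 0) (B' := 1)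
    (by norm_num) (by norm_num) (by norm_num)
  refine ⟨C, hC, fun δ hδ hδ1 t => ?_⟩
  have hJ := Ja_nonneg β δ t
  have h1 : ∀ σ ∈ Set.Icc δ (2 * δ), zc σ t ≤ (C * Ja β δ t) ^ (1 / β) := by
    intro σ hσ
    have hs : ((σ / δ : ℝ) : ℂ) ∈ rc 1 2 0 := by
      refine ⟨?_, ?_, ?_⟩
      · rw [Complex.ofReal_re, le_div_iff₀ hδ]
        linarith [hσ.1]
      · rw [Complex.ofReal_re, div_le_iff₀ hδ]
        exact hσ.2
      · rw [Complex.ofReal_im, abs_zero]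
    have h2 := h (gz δ t) UU UU_open rc_UU' (gz_diff hδ (by linarith)) _ hs
    have e : ‖gz δ t ((σ / δ : ℝ) : ℂ)‖ = zc σ t := by
      rw [zc_eq (by linarith [hσ.2])]
      unfold gz zn
      congr 2
      rw [show (1 / 2 + (t:ℂ) * I + (δ:ℂ) * ((σ / δ : ℝ) : ℂ)) = 1 / 2 + (t:ℂ) * I + ((δ * (σ / δ) : ℝ) : ℂ) by push_cast; ring,
        mul_div_cancel₀ _ hδ.ne']
      push_cast
      ring
    rw [e] at h2
    have h3 : zc σ t = (zc σ t ^ β) ^ (1 / β) := by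
      rw [← Real.rpow_mul (zc_nonneg _ _), mul_one_div_cancel hβ.ne', Real.rpow_one]
    rw [h3]
    exact Real.rpow_le_rpow (Real.rpow_nonneg (zc_nonneg _ _) _) h2 (by positivity)
  have h4 : Bl δ t ≤ δ * (C * Ja β δ t) ^ (1 / β) := by
    have h5 : Bl δ t ≤ ∫ _ in δ..(2 * δ), (C * Ja β δ t) ^ (1 / β) := by
      unfold Bl
      exact intervalIntegral.integral_mono_on (by linarith) (zc_ii t _ _) (continuous_const.intervalIntegrable _ _) h1
    rw [intervalIntegral.integral_const, smul_eq_mul] at h5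
    calc _ ≤ _ := h5
      _ = _ := by ring
  have h6 : 0 ≤ (C * Ja β δ t) ^ (1 / β) := by positivity
  calc Bl δ t ^ β ≤ (δ * (C * Ja β δ t) ^ (1 / β)) ^ β := Real.rpow_le_rpow (Bl_nonneg hδ.le t) h4 hβ.le
    _ = δ ^ β * (C * Ja β δ t) := by
        rw [Real.mul_rpow hδ.le h6, ← Real.rpow_mul (by positivity), one_div_mul_cancel hβ.ne', Real.rpow_one]
    _ = _ := by ring

lemma inner_le' {β δ X : ℝ} (hβ : 0 < β) (hδ : 0 < δ) (hδ1 : δ ≤ 1 / 64) (hX : 0 < X) {w : ℂ}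
    (hw : w ∈ rc (1 / 2) (5 / 2) 1) :
    ∫ t in Set.Icc 0 X, ‖gz δ t w‖ ^ β ≤ 2 * ∫ t in (0:ℝ)..(2 * (X + 1)), zn (1 / 2 + δ * w.re) t ^ β := by
  obtain ⟨h1, h2, h3⟩ := hw
  have hre : 0 < δ * w.re := by positivity
  have hre2 : δ * w.re ≤ 1 / 16 := by nlinarith
  have hcont := zp_cont' (σ := 1 / 2 + δ * w.re) (p := β) (by linarith) hβ
  have e1 : ∀ t : ℝ, ‖gz δ t w‖ ^ β = zn (1 / 2 + δ * w.re) (t + δ * w.im) ^ β := by
    intro t
    unfold gz zn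
    congr 3
    apply Complex.ext
    · simp
    · simp
  have him : |δ * w.im| ≤ 1 := by
    rw [abs_mul, abs_of_pos hδ]
    nlinarith [abs_nonneg w.im]
  have him' := abs_le.mp him
  simp_rw [e1]
  rw [integral_Icc_eq_integral_Ioc, ← intervalIntegral.integral_of_le hX.le,
    intervalIntegral.integral_comp_add_right (fun t => zn (1 / 2 + δ * w.re) t ^ β)]
  have e2 : ∫ t in (0 + δ * w.im)..(X + δ * w.im), zn (1 / 2 + δ * w.re) t ^ β ≤
      ∫ t in (-(X + 1))..((X + 1) + (X + 1)), zn (1 / 2 + δ * w.re) t ^ β :=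
    intervalIntegral.integral_mono_interval (by linarith) (by linarith) (by linarith)
      (Eventually.of_forall fun t => Real.rpow_nonneg (zn_nonneg _ _) _) (hcont.intervalIntegrable _ _)
  exact e2.trans (sym_le (by linarith) hβ (by linarith))

/-- the mean of the powers of the dyadic masses -/
theorem Bl_int {β : ℝ} (hβ : 0 < β) (hβ4 : β ≤ 4) : ∃ C r0 : ℝ, 0 < C ∧ 0 < r0 ∧ r0 ≤ 1 / 64 ∧
    ∀ᶠ X : ℝ in atTop, ∀ δ : ℝ, 0 < δ → δ ≤ r0 →
      ∫ t in (0:ℝ)..X, Bl δ t ^ β ≤ C * X * δ ^ (β - (β / 2) ^ 2) := by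
  obtain ⟨C1, hC1, h1⟩ := Bl_le hβ
  obtain ⟨C2, r2, hC2, hr2, hr2', h2⟩ := ub hβ hβ4
  obtain ⟨V, hV⟩ : ∃ V : ℝ, V = volume.real (rc (1 / 2) (5 / 2) 1) := ⟨_, rfl⟩
  have hV0 : 0 ≤ V := by rw [hV]; exact measureReal_nonneg
  have h2' : ∀ᶠ X : ℝ in atTop, ∀ σ : ℝ, 0 < σ → σ ≤ r2 →
      ∫ t in (0:ℝ)..(2 * (X + 1)), zn (1 / 2 + σ) t ^ β ≤ C2 * (2 * (X + 1)) * σ ^ (-((β / 2) ^ 2)) :=
    ((tendsto_atTop_add_const_right atTop 1 tendsto_id).const_mul_atTop (show (0:ℝ) < 2 by norm_num)).eventually h2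
  refine ⟨C1 * (8 * C2 * 2 ^ ((β / 2) ^ 2) * V) + 1, r2 / 4, by positivity, by positivity, by linarith, ?_⟩
  filter_upwards [h2', eventually_ge_atTop (1:ℝ)] with X hX hX1 δ hδ hδ1
  have hX0 : 0 < X := by linarith
  have hδ64 : δ ≤ 1 / 64 := by linarith
  obtain ⟨f1, f2, f3⟩ := Ja_fub (β := β) (δ := δ) (T := X) hβ hδ (by linarith)
  have hJ : ∫ t in Set.Icc 0 X, Ja β δ t ≤ 8 * C2 * 2 ^ ((β / 2) ^ 2) * V * X * δ ^ (-((β / 2) ^ 2)) := by
    rw [f3]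
    have hin : ∀ w ∈ rc (1 / 2) (5 / 2) 1, ∫ t in Set.Icc 0 X, ‖gz δ t w‖ ^ β ≤
        8 * C2 * 2 ^ ((β / 2) ^ 2) * X * δ ^ (-((β / 2) ^ 2)) := by
      intro w hw
      obtain ⟨w1, w2, w3⟩ := id hw
      have g0 : 0 < δ * w.re := by positivity
      have g1 := hX (δ * w.re) g0 (by nlinarith)
      have g2 := inner_le' hβ hδ hδ64 hX0 hw
      have g3 : (δ * w.re) ^ (-((β / 2) ^ 2)) ≤ 2 ^ ((β / 2) ^ 2) * δ ^ (-((β / 2) ^ 2)) := by
        have g6 : (δ * w.re) ^ (-((β / 2) ^ 2)) ≤ (δ / 2) ^ (-((β / 2) ^ 2)) :=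
          Real.rpow_le_rpow_of_nonpos (by positivity) (by nlinarith) (by have := sq_nonneg (β / 2); linarith)
        refine g6.trans (le_of_eq ?_)
        rw [Real.div_rpow hδ.le (by norm_num), Real.rpow_neg (by norm_num : (0:ℝ) ≤ 2)]
        field_simp
      have g4 : C2 * (2 * (X + 1)) * (δ * w.re) ^ (-((β / 2) ^ 2)) ≤
          C2 * (4 * X) * (2 ^ ((β / 2) ^ 2) * δ ^ (-((β / 2) ^ 2))) := by
        have : 2 * (X + 1) ≤ 4 * X := by linarith
        gcongr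
      calc _ ≤ _ := g2
        _ ≤ 2 * (C2 * (4 * X) * (2 ^ ((β / 2) ^ 2) * δ ^ (-((β / 2) ^ 2)))) := by linarith
        _ = _ := by ring
    have hm : MeasurableSet (rc (1 / 2) (5 / 2) 1) := (rc_compact _ _ _).isClosed.measurableSet
    have hint := setIntegral_mono_on f2 (integrableOn_const
      (C := 8 * C2 * 2 ^ ((β / 2) ^ 2) * X * δ ^ (-((β / 2) ^ 2))) (hs := (rc_compact _ _ _).measure_lt_top.ne)) hm hin
    rw [setIntegral_const, smul_eq_mul, ← hV] at hint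
    refine hint.trans (le_of_eq ?_)
    ring
  have hB : ∫ t in (0:ℝ)..X, Bl δ t ^ β ≤ C1 * δ ^ β * ∫ t in Set.Icc 0 X, Ja β δ t := by
    rw [intervalIntegral.integral_of_le hX0.le, ← integral_Icc_eq_integral_Ioc, ← integral_const_mul]
    refine setIntegral_mono_on ?_ (f1.const_mul _) measurableSet_Icc fun t _ => h1 δ hδ (by linarith) t
    exact (((Bl_cont δ).rpow_const fun t => Or.inr hβ.le)).integrableOn_Icc
  refine hB.trans ?_
  have e1 : δ ^ (β - (β / 2) ^ 2) = δ ^ β * δ ^ (-((β / 2) ^ 2)) := by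
    rw [← Real.rpow_add hδ]; ring_nf
  rw [e1]
  calc C1 * δ ^ β * ∫ t in Set.Icc 0 X, Ja β δ t ≤
      C1 * δ ^ β * (8 * C2 * 2 ^ ((β / 2) ^ 2) * V * X * δ ^ (-((β / 2) ^ 2))) := by gcongr
    _ = C1 * (8 * C2 * 2 ^ ((β / 2) ^ 2) * V) * X * (δ ^ β * δ ^ (-((β / 2) ^ 2))) := by ring
    _ ≤ _ := by
        have : 0 ≤ X * (δ ^ β * δ ^ (-((β / 2) ^ 2))) := by positivity
        nlinarith

/-- a weighted inequality for powers of sums -/
lemma pow_sum_le {β ρ : ℝ} (hβ : 0 < β) (hρ : 0 < ρ) (hρ1 : ρ < 1) (B : ℕ → ℝ) (hB : ∀ j, 0 ≤ B j) (J : ℕ) :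
    (∑ j ∈ Finset.range J, B j) ^ β ≤ ∑ j ∈ Finset.range J, (B j / ((1 - ρ) * ρ ^ j)) ^ β := by
  obtain ⟨M, hM⟩ : ∃ M : ℝ, M = ∑ j ∈ Finset.range J, (B j / ((1 - ρ) * ρ ^ j)) ^ β := ⟨_, rfl⟩
  have h1ρ : 0 < 1 - ρ := by linarith
  have hw : ∀ j : ℕ, 0 < (1 - ρ) * ρ ^ j := fun j => by positivity
  have h0 : ∀ j : ℕ, 0 ≤ B j / ((1 - ρ) * ρ ^ j) := fun j => div_nonneg (hB j) (hw j).le
  have hM0 : 0 ≤ M := by rw [hM]; exact Finset.sum_nonneg fun j _ => Real.rpow_nonneg (h0 j) _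
  rw [← hM]
  have h1 : ∀ j ∈ Finset.range J, B j ≤ ((1 - ρ) * ρ ^ j) * M ^ (1 / β) := by
    intro j hj
    have h2 : (B j / ((1 - ρ) * ρ ^ j)) ^ β ≤ M := by
      rw [hM]
      exact Finset.single_le_sum (f := fun j => (B j / ((1 - ρ) * ρ ^ j)) ^ β)
        (fun j _ => Real.rpow_nonneg (h0 j) _) hj
    have h3 : B j / ((1 - ρ) * ρ ^ j) ≤ M ^ (1 / β) := by
      have h4 : B j / ((1 - ρ) * ρ ^ j) = ((B j / ((1 - ρ) * ρ ^ j)) ^ β) ^ (1 / β) := by
        rw [← Real.rpow_mul (h0 j), mul_one_div_cancel hβ.ne', Real.rpow_one]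
      rw [h4]
      exact Real.rpow_le_rpow (Real.rpow_nonneg (h0 j) _) h2 (by positivity)
    rw [div_le_iff₀ (hw j)] at h3
    linarith
  have h2 : ∑ j ∈ Finset.range J, B j ≤ M ^ (1 / β) := by
    refine (Finset.sum_le_sum h1).trans ?_
    rw [← Finset.sum_mul, ← Finset.mul_sum]
    refine mul_le_of_le_one_left (by positivity) ?_
    rw [geom_sum_eq hρ1.ne]
    have h5 : (ρ ^ J - 1) / (ρ - 1) = (1 - ρ ^ J) / (1 - ρ) := by
      rw [← neg_sub 1 (ρ ^ J), ← neg_sub 1 ρ, neg_div_neg_eq]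
    rw [h5, mul_div_cancel₀ _ h1ρ.ne']
    have : 0 < ρ ^ J := by positivity
    linarith
  calc (∑ j ∈ Finset.range J, B j) ^ β ≤ (M ^ (1 / β)) ^ β :=
        Real.rpow_le_rpow (Finset.sum_nonneg fun j _ => hB j) h2 hβ.le
    _ = M := by rw [← Real.rpow_mul hM0, one_div_mul_cancel hβ.ne', Real.rpow_one]

/-- the mean of the powers of the local mass -/
theorem Ar_int {β : ℝ} (hβ : 0 < β) (hβ4 : β < 4) : ∃ C r0 : ℝ, 0 < C ∧ 0 < r0 ∧ r0 ≤ 1 / 64 ∧
    ∀ᶠ X : ℝ in atTop, ∀ r : ℝ, 0 < r → r ≤ r0 →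
      ∫ t in (0:ℝ)..X, Ar r t ^ β ≤ C * X * r ^ (β - (β / 2) ^ 2) := by
  obtain ⟨C1, r0, hC1, hr0, hr0', h1⟩ := Bl_int hβ hβ4.le
  obtain ⟨θ, hθ⟩ : ∃ θ : ℝ, θ = β - (β / 2) ^ 2 := ⟨_, rfl⟩
  have hθ0 : 0 < θ := by rw [hθ]; nlinarith
  obtain ⟨ρ, hρ⟩ : ∃ ρ : ℝ, ρ = (2:ℝ) ^ (-(θ / (2 * β))) := ⟨_, rfl⟩
  have hρ0 : 0 < ρ := by rw [hρ]; positivity
  have hρ1 : ρ < 1 := by
    rw [hρ]
    exact Real.rpow_lt_one_of_one_lt_of_neg (by norm_num) (by rw [neg_lt_zero]; positivity)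
  have hρβ : ρ ^ β = (2:ℝ) ^ (-(θ / 2)) := by
    rw [hρ, ← Real.rpow_mul (by norm_num)]
    congr 1
    field_simp
  obtain ⟨τ, hτ⟩ : ∃ τ : ℝ, τ = ρ ^ β := ⟨_, rfl⟩
  have hτ0 : 0 < τ := by rw [hτ]; positivity
  have hτ1 : τ < 1 := by
    rw [hτ, hρβ]
    exact Real.rpow_lt_one_of_one_lt_of_neg (by norm_num) (by rw [neg_lt_zero]; positivity)
  rw [← hθ] at h1 ⊢
  have h1ρ : 0 < 1 - ρ := by linarith
  have h1τ : 0 < 1 - τ := by linarith
  obtain ⟨C, hC⟩ : ∃ C : ℝ, C = ((1 - ρ) ^ β)⁻¹ * C1 * (1 - τ)⁻¹ := ⟨_, rfl⟩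
  have hC0 : 0 < C := by rw [hC]; positivity
  refine ⟨2 ^ β * C, r0, by positivity, hr0, hr0', ?_⟩
  filter_upwards [h1, eventually_gt_atTop (0:ℝ)] with X hX hX0 r hr hr1
  -- finite sums
  have hsum : ∀ J : ℕ, ∫ t in (0:ℝ)..X, (∑ j ∈ Finset.range J, Bl (r / 2 ^ (j + 1)) t) ^ β ≤ C * X * r ^ θ := by
    intro J
    have hd : ∀ j : ℕ, 0 < r / 2 ^ (j + 1) := fun j => by positivity
    have hd1 : ∀ j : ℕ, r / 2 ^ (j + 1) ≤ r := fun j => div_le_self hr.le (one_le_pow₀ (by norm_num))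
    have hBc : ∀ j : ℕ, Continuous fun t => (Bl (r / 2 ^ (j + 1)) t / ((1 - ρ) * ρ ^ j)) ^ β := fun j =>
      (((Bl_cont _).div_const _).rpow_const fun t => Or.inr hβ.le)
    have s1 : ∫ t in (0:ℝ)..X, (∑ j ∈ Finset.range J, Bl (r / 2 ^ (j + 1)) t) ^ β ≤
        ∫ t in (0:ℝ)..X, ∑ j ∈ Finset.range J, (Bl (r / 2 ^ (j + 1)) t / ((1 - ρ) * ρ ^ j)) ^ β := by
      refine intervalIntegral.integral_mono_on hX0.le ?_ ?_ fun t _ =>
        pow_sum_le hβ hρ0 hρ1 (fun j => Bl (r / 2 ^ (j + 1)) t) (fun j => Bl_nonneg (hd j).le t) J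
      · refine Continuous.intervalIntegrable ?_ _ _
        exact (continuous_finsetSum _ fun j _ => Bl_cont _).rpow_const fun t => Or.inr hβ.le
      · refine Continuous.intervalIntegrable ?_ _ _
        exact continuous_finsetSum _ fun j _ => hBc j
    rw [intervalIntegral.integral_finsetSum fun j _ => (hBc j).intervalIntegrable _ _] at s1
    refine s1.trans ?_
    have s2 : ∀ j ∈ Finset.range J, ∫ t in (0:ℝ)..X, (Bl (r / 2 ^ (j + 1)) t / ((1 - ρ) * ρ ^ j)) ^ β ≤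
        ((1 - ρ) ^ β)⁻¹ * C1 * X * r ^ θ * τ ^ j := by
      intro j _
      have g1 : ∀ t, (Bl (r / 2 ^ (j + 1)) t / ((1 - ρ) * ρ ^ j)) ^ β = ((1 - ρ) ^ β * τ ^ j)⁻¹ * Bl (r / 2 ^ (j + 1)) t ^ β := by
        intro t
        rw [Real.div_rpow (Bl_nonneg (hd j).le t) (by positivity), Real.mul_rpow h1ρ.le (by positivity), hτ,
          ← Real.rpow_natCast ρ j, ← Real.rpow_mul hρ0.le, mul_comm (j:ℝ) β, Real.rpow_mul hρ0.le, Real.rpow_natCast,
          inv_mul_eq_div]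
      simp_rw [g1]
      rw [intervalIntegral.integral_const_mul]
      have g2 := hX (r / 2 ^ (j + 1)) (hd j) ((hd1 j).trans hr1)
      have g3 : (r / 2 ^ (j + 1)) ^ θ ≤ r ^ θ * (τ ^ j) ^ 2 := by
        rw [Real.div_rpow hr.le (by positivity), div_eq_mul_inv]
        refine mul_le_mul_of_nonneg_left ?_ (by positivity)
        have g4 : (τ ^ j) ^ 2 = (2:ℝ) ^ (-(θ * j)) := by
          rw [hτ, hρβ, ← Real.rpow_natCast, ← Real.rpow_natCast, ← Real.rpow_mul (by positivity), ← Real.rpow_mul (by norm_num)]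
          congr 1
          push_cast
          ring
        have g5 : (((2:ℝ) ^ (j + 1)) ^ θ)⁻¹ = (2:ℝ) ^ (-(θ * (j + 1))) := by
          rw [← Real.rpow_natCast, ← Real.rpow_mul (by norm_num), ← Real.rpow_neg (by norm_num)]
          congr 1
          push_cast
          ring
        rw [g4, g5]
        exact Real.rpow_le_rpow_of_exponent_le (by norm_num) (by nlinarith)
      calc ((1 - ρ) ^ β * τ ^ j)⁻¹ * ∫ t in (0:ℝ)..X, Bl (r / 2 ^ (j + 1)) t ^ β ≤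
          ((1 - ρ) ^ β * τ ^ j)⁻¹ * (C1 * X * (r ^ θ * (τ ^ j) ^ 2)) := by
            refine mul_le_mul_of_nonneg_left (g2.trans ?_) (by positivity)
            exact mul_le_mul_of_nonneg_left g3 (by positivity)
        _ = _ := by
            rw [mul_inv]
            have : (τ ^ j)⁻¹ * (τ ^ j) ^ 2 = τ ^ j := by rw [pow_two, inv_mul_cancel_left₀ (by positivity)]
            calc ((1 - ρ) ^ β)⁻¹ * (τ ^ j)⁻¹ * (C1 * X * (r ^ θ * (τ ^ j) ^ 2)) =
                ((1 - ρ) ^ β)⁻¹ * C1 * X * r ^ θ * ((τ ^ j)⁻¹ * (τ ^ j) ^ 2) := by ring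
              _ = _ := by rw [this]
    refine (Finset.sum_le_sum s2).trans ?_
    rw [← Finset.mul_sum]
    have s3 : ∑ j ∈ Finset.range J, τ ^ j ≤ (1 - τ)⁻¹ := by
      rw [← tsum_geometric_of_lt_one hτ0.le hτ1]
      exact (summable_geometric_of_lt_one hτ0.le hτ1).sum_le_tsum _ fun j _ => by positivity
    calc ((1 - ρ) ^ β)⁻¹ * C1 * X * r ^ θ * ∑ j ∈ Finset.range J, τ ^ j ≤
        ((1 - ρ) ^ β)⁻¹ * C1 * X * r ^ θ * (1 - τ)⁻¹ := by gcongr
      _ = C * X * r ^ θ := by rw [hC]; ring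
  -- the limit
  have hJ : ∀ J : ℕ, ∫ t in (0:ℝ)..X, Ar r t ^ β ≤ 2 ^ β * (C * X * r ^ θ + X * ((r / 2 ^ J) * (12 * (1 + X))) ^ β) := by
    intro J
    have hd : ∀ j : ℕ, 0 ≤ r / 2 ^ (j + 1) := fun j => by positivity
    have hSc : Continuous fun t => (∑ j ∈ Finset.range J, Bl (r / 2 ^ (j + 1)) t) ^ β :=
      (continuous_finsetSum _ fun j _ => Bl_cont _).rpow_const fun t => Or.inr hβ.le
    have s1 : ∫ t in (0:ℝ)..X, Ar r t ^ β ≤ ∫ t in (0:ℝ)..X, 2 ^ β * ((∑ j ∈ Finset.range J, Bl (r / 2 ^ (j + 1)) t) ^ β +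
        ((r / 2 ^ J) * (12 * (1 + X))) ^ β) := by
      refine intervalIntegral.integral_mono_on hX0.le ?_ ?_ fun t ht => ?_
      · exact ((Ar_cont r).rpow_const fun t => Or.inr hβ.le).intervalIntegrable _ _
      · exact (continuous_const.mul (hSc.add continuous_const)).intervalIntegrable _ _
      · rw [Ar_split r t J]
        have g1 : 0 ≤ ∑ j ∈ Finset.range J, Bl (r / 2 ^ (j + 1)) t := Finset.sum_nonneg fun j _ => Bl_nonneg (hd j) t
        have g2 : 0 ≤ Ar (r / 2 ^ J) t := Ar_nonneg (by positivity) t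
        refine (rpow_add_le g1 g2 hβ).trans ?_
        have g3 : Ar (r / 2 ^ J) t ≤ (r / 2 ^ J) * (12 * (1 + X)) :=
          Ar_le (by positivity) (by rw [abs_of_nonneg ht.1]; exact ht.2)
        have g4 := Real.rpow_le_rpow g2 g3 hβ.le
        gcongr
    rw [intervalIntegral.integral_const_mul, intervalIntegral.integral_add (hSc.intervalIntegrable _ _)
      (continuous_const.intervalIntegrable _ _), intervalIntegral.integral_const, smul_eq_mul, sub_zero] at s1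
    refine s1.trans ?_
    have := hsum J
    gcongr
  have hlim : Tendsto (fun J : ℕ => 2 ^ β * (C * X * r ^ θ + X * ((r / 2 ^ J) * (12 * (1 + X))) ^ β)) atTop
      (𝓝 (2 ^ β * (C * X * r ^ θ + X * ((0:ℝ) * (12 * (1 + X))) ^ β))) := by
    have h2 : Tendsto (fun J : ℕ => r / 2 ^ J) atTop (𝓝 0) := by
      have := (tendsto_pow_atTop_nhds_zero_of_lt_one (r := (1 / 2 : ℝ)) (by norm_num) (by norm_num)).const_mul r
      rw [mul_zero] at this
      refine this.congr fun J => ?_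
      rw [one_div, inv_pow]
      rfl
    have h3 := (h2.mul_const (12 * (1 + X)))
    have h4 := h3.rpow_const (p := β) (Or.inr hβ.le)
    exact ((h4.const_mul X).const_add _).const_mul _
  have := ge_of_tendsto' hlim hJ
  rw [zero_mul, Real.zero_rpow hβ.ne', mul_zero, add_zero] at this
  refine this.trans (le_of_eq ?_)
  ring

end Pool.Agent.T6.H6.MA
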