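import Mathlib

/-!
# Moving a vertical integral
-/

set_option autoImplicit false

open MeasureTheory Set Filter Topology

namespace Pool.Agent.T6.H6.MA

open Complex (I)

/-- comparison of the integrals over two parallel vertical segments -/
theorem rect {f : ℂ → ℂ} {x0 r t h : ℝ} (hr : 0 ≤ r)
    (hf : ∀ z : ℂ, x0 ≤ z.re → z.re ≤ x0 + r → DifferentiableAt ℂ f z) :
    ‖(∫ y in (0:ℝ)..h, f (x0 + (t + y : ℝ) * I)) - ∫ y in (0:ℝ)..h, f ((x0 + r : ℝ) + (t + y : ℝ) * I)‖ ≤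
      (∫ x in (0:ℝ)..r, ‖f ((x0 + x : ℝ) + (t : ℝ) * I)‖) + ∫ x in (0:ℝ)..r, ‖f ((x0 + x : ℝ) + (t + h : ℝ) * I)‖ := by
  have h1 := Complex.integral_boundary_rect_eq_zero_of_differentiableOn f ((x0 : ℂ) + t * I) (((x0 + r : ℝ) : ℂ) + (t + h : ℝ) * I) (by
    intro z hz
    rw [Complex.mem_reProdIm] at hz
    have h2 := hz.1
    have e1 : ((x0 : ℂ) + t * I).re = x0 := by simp
    have e2 : (((x0 + r : ℝ) : ℂ) + (t + h : ℝ) * I).re = x0 + r := by simp
    rw [e1, e2, uIcc_of_le (by linarith)] at h2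
    exact (hf z h2.1 h2.2).differentiableWithinAt)
  have e1 : ((x0 : ℂ) + t * I).re = x0 := by simp
  have e2 : (((x0 + r : ℝ) : ℂ) + (t + h : ℝ) * I).re = x0 + r := by simp
  have e3 : ((x0 : ℂ) + t * I).im = t := by simp
  have e4 : (((x0 + r : ℝ) : ℂ) + (t + h : ℝ) * I).im = t + h := by simp
  rw [e1, e2, e3, e4] at h1
  have s1 : ∫ y in t..(t + h), f ((x0 : ℂ) + y * I) = ∫ y in (0:ℝ)..h, f (x0 + (t + y : ℝ) * I) := by
    rw [intervalIntegral.integral_comp_add_left (fun y : ℝ => f ((x0 : ℂ) + y * I)) t, add_zero]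
  have s2 : ∫ y in t..(t + h), f (((x0 + r : ℝ) : ℂ) + y * I) = ∫ y in (0:ℝ)..h, f ((x0 + r : ℝ) + (t + y : ℝ) * I) := by
    rw [intervalIntegral.integral_comp_add_left (fun y : ℝ => f (((x0 + r : ℝ) : ℂ) + y * I)) t, add_zero]
  have s3 : ∀ v : ℝ, ∫ x in x0..(x0 + r), f ((x : ℂ) + v * I) = ∫ x in (0:ℝ)..r, f ((x0 + x : ℝ) + (v : ℝ) * I) := by
    intro v
    rw [intervalIntegral.integral_comp_add_left (fun x : ℝ => f ((x : ℂ) + v * I)) x0, add_zero]
  rw [s1, s2, s3, s3, smul_eq_mul, smul_eq_mul] at h1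
  have h5 : (∫ y in (0:ℝ)..h, f (x0 + (t + y : ℝ) * I)) - ∫ y in (0:ℝ)..h, f ((x0 + r : ℝ) + (t + y : ℝ) * I) =
      -(I * ((∫ x in (0:ℝ)..r, f ((x0 + x : ℝ) + (t : ℝ) * I)) - ∫ x in (0:ℝ)..r, f ((x0 + x : ℝ) + (t + h : ℝ) * I))) := by
    have h6 : I * I = -1 := Complex.I_mul_I
    linear_combination I * h1 + ((∫ y in (0:ℝ)..h, f (x0 + (t + y : ℝ) * I)) - ∫ y in (0:ℝ)..h, f ((x0 + r : ℝ) + (t + y : ℝ) * I)) * h6
  rw [h5, norm_neg, norm_mul, Complex.norm_I, one_mul]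
  refine (norm_sub_le _ _).trans (add_le_add ?_ ?_)
  · exact intervalIntegral.norm_integral_le_integral_norm hr
  · exact intervalIntegral.norm_integral_le_integral_norm hr

/-- the Cauchy-Schwarz inequality with a weight -/
lemma cs_weight {f s : ℝ → ℝ} {a b : ℝ} (hab : a < b) (hf : ContinuousOn f (Icc a b)) (hs : ContinuousOn s (Icc a b))
    (hs0 : ∀ x ∈ Icc a b, 0 < s x) :
    (∫ x in a..b, f x) ^ 2 ≤ (∫ x in a..b, s x) * ∫ x in a..b, f x ^ 2 / s x := by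
  have hu : uIcc a b = Icc a b := uIcc_of_le hab.le
  have i1 : IntervalIntegrable f volume a b := (hu ▸ hf : ContinuousOn f (uIcc a b)).intervalIntegrable
  have i2 : IntervalIntegrable s volume a b := (hu ▸ hs : ContinuousOn s (uIcc a b)).intervalIntegrable
  have c3 : ContinuousOn (fun x => f x ^ 2 / s x) (Icc a b) := (hf.pow 2).div hs fun x hx => (hs0 x hx).ne'
  have i3 : IntervalIntegrable (fun x => f x ^ 2 / s x) volume a b :=
    (hu ▸ c3 : ContinuousOn (fun x => f x ^ 2 / s x) (uIcc a b)).intervalIntegrable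
  obtain ⟨A, hA⟩ : ∃ A : ℝ, A = ∫ x in a..b, f x := ⟨_, rfl⟩
  obtain ⟨S, hS⟩ : ∃ S : ℝ, S = ∫ x in a..b, s x := ⟨_, rfl⟩
  obtain ⟨Q, hQ⟩ : ∃ Q : ℝ, Q = ∫ x in a..b, f x ^ 2 / s x := ⟨_, rfl⟩
  have hS0 : 0 < S := by
    rw [hS]
    exact intervalIntegral.intervalIntegral_pos_of_pos_on i2 (fun x hx => hs0 x (Ioo_subset_Icc_self hx)) hab
  have h1 : 0 ≤ ∫ x in a..b, (f x ^ 2 / s x - 2 * (A / S) * f x + (A / S) ^ 2 * s x) := by
    refine intervalIntegral.integral_nonneg hab.le fun x hx => ?_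
    have h2 := hs0 x hx
    have h3 : f x ^ 2 / s x - 2 * (A / S) * f x + (A / S) ^ 2 * s x = (f x - A / S * s x) ^ 2 / s x := by
      field_simp
      ring
    rw [h3]
    positivity
  rw [intervalIntegral.integral_add (i3.sub (i1.const_mul _)) (i2.const_mul _), intervalIntegral.integral_sub i3 (i1.const_mul _),
    intervalIntegral.integral_const_mul, intervalIntegral.integral_const_mul, ← hA, ← hS, ← hQ] at h1
  rw [← hA, ← hS, ← hQ]
  have h4 : Q - 2 * (A / S) * A + (A / S) ^ 2 * S = Q - A ^ 2 / S := by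
    field_simp
    ring
  rw [h4, sub_nonneg, div_le_iff₀ hS0] at h1
  linarith

end Pool.Agent.T6.H6.MA
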