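import Pool.Agent.T6.H6.MA.Lim

/-!
# The limit for the shifted averages
-/

set_option autoImplicit false

open MeasureTheory Filter Topology

namespace Pool.Agent.T6.H6.MA

open Complex (I)
open Pool.Agent.W184 (zn zn_nonneg zn_le')
open Pool.Agent.H306R2 (aF aF_pos)

/-- a trivial bound -/
lemma mB_le {h t D : ℝ} (hh : 0 < h) (hh1 : h ≤ 1) (ht : |t| ≤ D) : ‖mB 0 h t‖ ≤ 12 * (2 + D) := by
  unfold mB
  rw [norm_mul, norm_inv, Complex.norm_real, Real.norm_of_nonneg hh.le, inv_mul_le_iff₀ hh]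
  have h1 := intervalIntegral.norm_integral_le_of_norm_le_const (a := 0) (b := h) (C := 12 * (2 + D))
    (f := fun y : ℝ => riemannZeta (((1 / 2 + 0 : ℝ) : ℂ) + ((t + y : ℝ) : ℂ) * I)) (fun y hy => by
      rw [Set.uIoc_of_le hh.le] at hy
      have h2 := zn_le' (σ := 1 / 2 + 0) (t := t + y) (by norm_num) (by norm_num)
      have h3 : |t + y| ≤ |t| + |y| := abs_add_le t y
      rw [abs_of_pos hy.1] at h3
      have h4 := hy.2
      have h5 : zn (1 / 2 + 0) (t + y) ≤ 12 * (2 + D) := by linarith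
      exact h5)
  rw [sub_zero, abs_of_pos hh] at h1
  linarith

theorem shift_lim {k c : ℝ} (hk : 0 < k)
    (H : ∀ h : ℝ → ℝ, Tendsto h atTop (𝓝 0) → Tendsto (fun T : ℝ => h T * Real.log T) atTop atTop →
      Tendsto (fun T : ℝ => (2 * h T) ^ (k ^ 2) / T * ∫ t in Set.Icc 0 T, ‖mB 0 (h T) t‖ ^ (2 * k)) atTop (𝓝 c))
    (x : ℝ) {h : ℝ → ℝ} (hh : Tendsto h atTop (𝓝 0)) (hhL : Tendsto (fun T : ℝ => h T * Real.log T) atTop atTop) :
    Tendsto (fun T : ℝ => (2 * h T) ^ (k ^ 2) * ∫ u in (0:ℝ)..1, ‖mB 0 (h T) (x + u * T)‖ ^ (2 * k)) atTop (𝓝 c) := by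
  have hpos : ∀ᶠ T in atTop, 0 < h T := by
    filter_upwards [hhL.eventually_gt_atTop 0, eventually_gt_atTop 1] with T hT hT1
    exact (pos_iff_pos_of_mul_pos hT).mpr (Real.log_pos hT1)
  have hsub : Tendsto (fun S : ℝ => S - x) atTop atTop := by
    simpa [sub_eq_add_neg] using tendsto_atTop_add_const_right atTop (-x) (tendsto_id (α := ℝ))
  have hadd : Tendsto (fun S : ℝ => S + x) atTop atTop := tendsto_atTop_add_const_right atTop x tendsto_id
  have h1 := H (fun S => h (S - x)) (hh.comp hsub) (by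
    have e1 : Tendsto (fun S : ℝ => (1 / 2) * (h (S - x) * Real.log (S - x))) atTop atTop :=
      (hhL.comp hsub).const_mul_atTop (by norm_num)
    refine tendsto_atTop_mono' atTop ?_ e1
    filter_upwards [hsub.eventually hpos, hsub.eventually_gt_atTop 1, eventually_gt_atTop (2 + |x|)] with S g1 g2 g3
    have g4 : S - x ≤ S ^ 2 := by
      have := neg_abs_le x
      have := abs_nonneg x
      nlinarith
    have g5 : Real.log (S - x) ≤ 2 * Real.log S := by
      have g6 := Real.log_le_log (by linarith) g4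
      rwa [Real.log_pow, Nat.cast_ofNat] at g6
    have g7 := mul_le_mul_of_nonneg_left g5 g1.le
    linarith)
  have h2 : Tendsto (fun T : ℝ => (2 * h T) ^ (k ^ 2) / (T + x) * ∫ t in Set.Icc 0 (T + x), ‖mB 0 (h T) t‖ ^ (2 * k)) atTop (𝓝 c) := by
    refine (h1.comp hadd).congr fun T => ?_
    simp only [Function.comp, add_sub_cancel_right]
  have h3 : Tendsto (fun T : ℝ => (T + x) / T) atTop (𝓝 1) := by
    have e1 : Tendsto (fun T : ℝ => 1 + x * T⁻¹) atTop (𝓝 (1 + x * 0)) := (tendsto_inv_atTop_zero.const_mul x).const_add 1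
    rw [mul_zero, add_zero] at e1
    refine e1.congr' ?_
    filter_upwards [eventually_gt_atTop (0:ℝ)] with T hT
    field_simp
  have h4 := h3.mul h2
  rw [one_mul] at h4
  -- the error term
  obtain ⟨D, hD⟩ : ∃ D : ℝ, D = (12 * (2 + |x|)) ^ (2 * k) * |x| := ⟨_, rfl⟩
  have hD0 : 0 ≤ D := by rw [hD]; positivity
  have h5 : Tendsto (fun T : ℝ => (2 * h T) ^ (k ^ 2) / T * ∫ t in (0:ℝ)..x, ‖mB 0 (h T) t‖ ^ (2 * k)) atTop (𝓝 0) := by
    have e1 : Tendsto (fun T : ℝ => D * T⁻¹) atTop (𝓝 (D * 0)) := tendsto_inv_atTop_zero.const_mul D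
    rw [mul_zero] at e1
    refine squeeze_zero_norm' ?_ e1
    filter_upwards [hpos, hh.eventually (gt_mem_nhds (show (0:ℝ) < 1 / 2 by norm_num)), eventually_gt_atTop (0:ℝ)] with T g1 g2 g3
    rw [norm_mul, Real.norm_of_nonneg (by positivity)]
    have g4 : ‖∫ t in (0:ℝ)..x, ‖mB 0 (h T) t‖ ^ (2 * k)‖ ≤ D := by
      have g5 := intervalIntegral.norm_integral_le_of_norm_le_const (a := 0) (b := x) (C := (12 * (2 + |x|)) ^ (2 * k))
        (f := fun t : ℝ => ‖mB 0 (h T) t‖ ^ (2 * k)) (fun t ht => by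
          rw [Real.norm_of_nonneg (by positivity)]
          refine Real.rpow_le_rpow (norm_nonneg _) (mB_le g1 (by linarith) ?_) (by positivity)
          rcases le_total 0 x with hx | hx
          · rw [Set.uIoc_of_le hx] at ht
            rw [abs_of_pos ht.1, abs_of_nonneg hx]
            exact ht.2
          · rw [Set.uIoc_of_ge hx] at ht
            rw [abs_of_nonpos ht.2, abs_of_nonpos hx]
            linarith [ht.1])
      rw [sub_zero] at g5
      rw [hD]
      exact g5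
    have g6 : (2 * h T) ^ (k ^ 2) ≤ 1 := Real.rpow_le_one (by positivity) (by linarith) (by positivity)
    calc (2 * h T) ^ (k ^ 2) / T * ‖∫ t in (0:ℝ)..x, ‖mB 0 (h T) t‖ ^ (2 * k)‖ ≤ 1 / T * D := by gcongr
      _ = D * T⁻¹ := by ring
  have h6 := h4.sub h5
  rw [sub_zero] at h6
  refine h6.congr' ?_
  filter_upwards [eventually_gt_atTop (0:ℝ), eventually_gt_atTop (-x)] with T g1 g2
  have g3 : 0 < T + x := by linarith
  have hc0 : Continuous fun t => ‖mB 0 (h T) t‖ ^ (2 * k) :=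
    ((mB_cont (by norm_num) (h T)).norm).rpow_const fun t => Or.inr (by positivity)
  have e1 : ∫ u in (0:ℝ)..1, ‖mB 0 (h T) (x + u * T)‖ ^ (2 * k) = T⁻¹ * ∫ t in x..(T + x), ‖mB 0 (h T) t‖ ^ (2 * k) := by
    have g4 := intervalIntegral.integral_comp_mul_add (a := (0:ℝ)) (b := 1) (fun t => ‖mB 0 (h T) t‖ ^ (2 * k)) g1.ne' x
    rw [mul_zero, zero_add, mul_one, smul_eq_mul] at g4
    rw [← g4]
    refine intervalIntegral.integral_congr fun u _ => ?_
    show ‖mB 0 (h T) (x + u * T)‖ ^ (2 * k) = ‖mB 0 (h T) (T * u + x)‖ ^ (2 * k)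
    rw [show x + u * T = T * u + x by ring]
  have e2 : ∫ t in x..(T + x), ‖mB 0 (h T) t‖ ^ (2 * k) =
      (∫ t in (0:ℝ)..(T + x), ‖mB 0 (h T) t‖ ^ (2 * k)) - ∫ t in (0:ℝ)..x, ‖mB 0 (h T) t‖ ^ (2 * k) := by
    rw [intervalIntegral.integral_interval_sub_left (hc0.intervalIntegrable _ _) (hc0.intervalIntegrable _ _)]
  rw [e1, e2, integral_Icc_eq_integral_Ioc, ← intervalIntegral.integral_of_le g3.le]
  have g1' := g1.ne'
  have g3' := g3.ne'
  field_simp

end Pool.Agent.T6.H6.MA
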