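import Pool.Agent.T6.H6.MA.Up

/-!
# Uniform upper bounds near the critical line
-/

set_option autoImplicit false

open MeasureTheory Set Filter Topology

namespace Pool.Agent.T6.H6.MA

open Pool.Agent.W184 (zn zn_nonneg zn_cont zn_neg)
open Pool.Agent.Y755 (mom DD mom_eq DD_ge_one)
open Pool.Agent.Y753.NL (DD_up)
open Pool.Agent.Y753.SHR (up_full)

/-- the uniform upper bound -/
theorem ub {p : ℝ} (hp : 0 < p) (hp4 : p ≤ 4) : ∃ C r0 : ℝ, 0 < C ∧ 0 < r0 ∧ r0 ≤ 1 / 16 ∧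
    ∀ᶠ X : ℝ in atTop, ∀ σ : ℝ, 0 < σ → σ ≤ r0 →
      ∫ t in (0:ℝ)..X, zn (1 / 2 + σ) t ^ p ≤ C * X * σ ^ (-((p / 2) ^ 2)) := by
  have hs : 0 < p / 2 := by positivity
  obtain ⟨lam, hlam, hup⟩ := up_full hs (by linarith) (ε := 1) one_pos
  obtain ⟨δ0, C0, hδ0, hC0, hDD⟩ := DD_up hs
  have h := ub_of (p := p) hp hp4 (lam := lam) (C0 := 2 * C0) (δ1 := min δ0 (1 / 16)) hlam (by positivity)
    (lt_min hδ0 (by norm_num)) (min_le_right _ _) ?_
  · obtain ⟨C, hC, h⟩ := h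
    exact ⟨C, min δ0 (1 / 16), hC, lt_min hδ0 (by norm_num), min_le_right _ _, h⟩
  · filter_upwards [hup 0, eventually_gt_atTop (1:ℝ)] with X h1 h2 δ h3 h4
    have hL : 0 < Real.log X := Real.log_pos h2
    have hδ : 0 < δ := lt_of_lt_of_le (by positivity) h3
    have h5 := h1 δ h3 (h4.trans (min_le_right _ _))
    have h6 := hDD δ hδ (h4.trans (min_le_left _ _))
    have hX0 : 0 < X := by linarith
    rw [mom_eq _ _ _ hX0, add_zero, inv_mul_le_iff₀ hX0, show 2 * (p / 2) = p by ring] at h5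
    have e : (((1 / 2 : ℝ) + δ : ℝ)) = 1 / 2 + δ := rfl
    refine h5.trans ?_
    have h7 : X * ((1 + 1) * DD (p / 2) δ) ≤ X * ((1 + 1) * (C0 * δ ^ (-((p / 2) ^ 2)))) := by gcongr
    refine h7.trans (le_of_eq ?_)
    ring

end Pool.Agent.T6.H6.MA
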