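import Pool.Agent.T6.H6.MA.Avg
import Pool.Agent.R313.FN.E

/-!
# Upper bounds for the moments of order at most four near and on the critical line
-/

set_option autoImplicit false

open MeasureTheory Set Filter Topology

namespace Pool.Agent.T6.H6.MA

open Complex (I)
open Pool.Agent.W184 (zn zn_nonneg zn_cont zn_le zn_le' zn_neg zeta_diffAt KS KS_cont KS_nonneg KS_le KS_integral
  KS_integrable strip_ineq gauss_lin fe_p)
open Pool.Agent.Y755 (mom DD)
open Pool.Agent.Y753.NL (DD_up)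
open Pool.Agent.Y753.SHR (up_full)

lemma gauss_poly {p : ℝ} (hp : 0 < p) : ∃ A : ℝ, 0 < A ∧ ∀ w : ℝ, Real.exp (-(p * w ^ 2)) ≤ A * ((1 + w ^ 2)⁻¹) ^ 16 := by
  refine ⟨(Nat.factorial 16 : ℝ) / p ^ 16 * Real.exp p, by positivity, fun w => ?_⟩
  have h0 : 0 < 1 + w ^ 2 := by positivity
  have h1 := Real.pow_div_factorial_le_exp (p * (1 + w ^ 2)) (by positivity) 16
  have h2 : Real.exp (p * (1 + w ^ 2)) = Real.exp p * Real.exp (p * w ^ 2) := by
    rw [← Real.exp_add]; congr 1; ring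
  rw [h2, mul_pow, div_le_iff₀ (by positivity)] at h1
  rw [inv_pow, Real.exp_neg, ← div_eq_mul_inv, le_div_iff₀ (by positivity), inv_mul_le_iff₀ (Real.exp_pos _)]
  have h3 : (1 + w ^ 2) ^ 16 ≤ Real.exp p * Real.exp (p * w ^ 2) * (Nat.factorial 16 : ℝ) / p ^ 16 := by
    rw [le_div_iff₀ (by positivity)]
    linarith
  refine h3.trans (le_of_eq ?_)
  ring

lemma rpow_add_le {u v p : ℝ} (hu : 0 ≤ u) (hv : 0 ≤ v) (hp : 0 < p) : (u + v) ^ p ≤ 2 ^ p * (u ^ p + v ^ p) := by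
  have hup := Real.rpow_nonneg hu p
  have hvp := Real.rpow_nonneg hv p
  have h2p : 0 < (2:ℝ) ^ p := by positivity
  rcases le_total u v with h | h
  · calc (u + v) ^ p ≤ (2 * v) ^ p := Real.rpow_le_rpow (by positivity) (by linarith) hp.le
      _ = 2 ^ p * v ^ p := Real.mul_rpow (by norm_num) hv
      _ ≤ _ := by nlinarith
  · calc (u + v) ^ p ≤ (2 * u) ^ p := Real.rpow_le_rpow (by positivity) (by linarith) hp.le
      _ = 2 ^ p * u ^ p := Real.mul_rpow (by norm_num) hu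
      _ ≤ _ := by nlinarith

lemma zn_pow_le {σ x p : ℝ} (hp : 0 < p) (hp4 : p ≤ 4) (h1 : 3 / 8 ≤ σ) (h2 : σ ≤ 3 / 4) :
    zn σ x ^ p ≤ 83000 * (1 + x ^ 2) ^ 2 := by
  have h3 := zn_le' (t := x) h1 h2
  have h4 : (1:ℝ) ≤ 12 * (1 + |x|) := by linarith [abs_nonneg x]
  calc zn σ x ^ p ≤ (12 * (1 + |x|)) ^ p := Real.rpow_le_rpow (zn_nonneg _ _) h3 hp.le
    _ ≤ (12 * (1 + |x|)) ^ (4:ℝ) := Real.rpow_le_rpow_of_exponent_le h4 hp4
    _ = 20736 * ((1 + |x|) ^ 2) ^ 2 := by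
        rw [show (4:ℝ) = ((4:ℕ):ℝ) by norm_num, Real.rpow_natCast]; ring
    _ ≤ 20736 * (2 * (1 + x ^ 2)) ^ 2 := by
        have : (1 + |x|) ^ 2 ≤ 2 * (1 + x ^ 2) := by nlinarith [sq_abs x, sq_nonneg (|x| - 1)]
        have h5 : 0 ≤ (1 + |x|) ^ 2 := by positivity
        gcongr
    _ ≤ 83000 * (1 + x ^ 2) ^ 2 := by nlinarith [sq_nonneg (1 + x ^ 2)]

/-- the strip inequality for zeta -/
theorem strip_pt {σ Δ p t : ℝ} (hp : 0 < p) (h0 : 0 < Δ) (h1 : Δ ≤ 1 / 16) (hσ : 1 / 2 ≤ σ) (hσ1 : σ ≤ 5 / 8) :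
    zn σ t ^ p ≤ (∫ w : ℝ, (KS Δ w * Real.exp (p * (Δ ^ 2 - w ^ 2))) * zn (σ + Δ) (t + w) ^ p) +
      ∫ w : ℝ, (KS Δ w * Real.exp (p * (Δ ^ 2 - w ^ 2))) * zn (σ - Δ) (t + w) ^ p := by
  set c : ℂ := (σ : ℂ) + t * I with hc
  have hcre : c.re = σ := by simp [hc]
  have hcim : c.im = t := by simp [hc]
  set F : ℂ → ℂ := fun z => riemannZeta z * Complex.exp ((z - c) ^ 2) with hF
  have hFd : ∀ z : ℂ, z.re < 1 → DifferentiableAt ℂ F z := by
    intro z hz
    exact (zeta_diffAt hz).mul (by fun_prop)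
  have hFn : ∀ z : ℂ, ‖F z‖ = ‖riemannZeta z‖ * Real.exp ((z.re - σ) ^ 2 - (z.im - t) ^ 2) := by
    intro z
    rw [hF]
    simp only
    rw [norm_mul, Complex.norm_exp]
    congr 2
    rw [pow_two, Complex.mul_re, Complex.sub_re, Complex.sub_im, hcre, hcim]
    ring
  have hb : ∀ z : ℂ, |z.re - c.re| ≤ Δ → ‖F z‖ ≤ 12 * (2 + |t|) * Real.exp 1 := by
    intro z hz
    rw [hcre] at hz
    have hz1 := abs_le.mp hz
    rw [hFn]
    have e1 : ‖riemannZeta z‖ ≤ 12 * (1 + (|t| + |z.im - t|)) := by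
      have h2 := zn_le' (σ := z.re) (t := z.im) (by linarith) (by linarith)
      have h3 : zn z.re z.im = ‖riemannZeta z‖ := by unfold zn; rw [Complex.re_add_im]
      rw [h3] at h2
      have h4 : |z.im| ≤ |t| + |z.im - t| := by
        have := abs_add_le t (z.im - t)
        rwa [add_sub_cancel] at this
      linarith
    have e3 : Real.exp ((z.re - σ) ^ 2 - (z.im - t) ^ 2) ≤
        Real.exp 1 * Real.exp (-(z.im - t) ^ 2) := by
      rw [← Real.exp_add]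
      refine Real.exp_le_exp.mpr ?_
      nlinarith
    have e4 := gauss_lin (a := |t|) (x := z.im - t) (abs_nonneg t)
    calc ‖riemannZeta z‖ * Real.exp ((z.re - σ) ^ 2 - (z.im - t) ^ 2) ≤
        (12 * (1 + (|t| + |z.im - t|))) * (Real.exp 1 * Real.exp (-(z.im - t) ^ 2)) := by
          gcongr
      _ = 12 * ((1 + (|t| + |z.im - t|)) * Real.exp (-(z.im - t) ^ 2)) * Real.exp 1 := by ring
      _ ≤ 12 * (2 + |t|) * Real.exp 1 := by gcongr
  have hmain := strip_ineq (F := F) (c := c) (p := p) h0 hp ?_ ?_ hb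
  · have e0 : ‖F c‖ = zn σ t := by
      rw [hFn, hcre, hcim]
      simp [zn, hc]
    rw [e0] at hmain
    refine hmain.trans (le_of_eq ?_)
    congr 1
    · refine integral_congr_ae (Filter.Eventually.of_forall fun w => ?_)
      simp only
      have r1 : (c + Δ + (w : ℂ) * I).re = σ + Δ := by simp [hcre]
      have r2 : (c + Δ + (w : ℂ) * I).im = t + w := by simp [hcim]
      have r3 : ‖riemannZeta (c + Δ + (w : ℂ) * I)‖ = zn (σ + Δ) (t + w) := by
        unfold zn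
        rw [← r1, ← r2, Complex.re_add_im]
      rw [hFn, r3, r1, r2, Real.mul_rpow (zn_nonneg _ _) (Real.exp_pos _).le, ← Real.exp_mul]
      rw [show ((σ + Δ - σ) ^ 2 - (t + w - t) ^ 2) * p = p * (Δ ^ 2 - w ^ 2) by ring]
      ring
    · refine integral_congr_ae (Filter.Eventually.of_forall fun w => ?_)
      simp only
      have r1 : (c - Δ + (w : ℂ) * I).re = σ - Δ := by simp [hcre]
      have r2 : (c - Δ + (w : ℂ) * I).im = t + w := by simp [hcim]
      have r3 : ‖riemannZeta (c - Δ + (w : ℂ) * I)‖ = zn (σ - Δ) (t + w) := by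
        unfold zn
        rw [← r1, ← r2, Complex.re_add_im]
      rw [hFn, r3, r1, r2, Real.mul_rpow (zn_nonneg _ _) (Real.exp_pos _).le, ← Real.exp_mul]
      rw [show ((σ - Δ - σ) ^ 2 - (t + w - t) ^ 2) * p = p * (Δ ^ 2 - w ^ 2) by ring]
      ring
  · intro z hz
    have hz' : |z.re - c.re| < Δ := hz
    rw [hcre] at hz'
    have := (abs_lt.mp hz').2
    exact (hFd z (by linarith)).differentiableWithinAt
  · intro z hz
    have hz' : |z.re - c.re| ≤ Δ := hz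
    rw [hcre] at hz'
    have := (abs_le.mp hz').2
    exact (hFd z (by linarith)).continuousAt.continuousWithinAt

lemma zp_cont' {σ p : ℝ} (hσ : σ < 1) (hp : 0 < p) : Continuous fun t => zn σ t ^ p :=
  (zn_cont hσ).rpow_const fun _ => Or.inr hp.le

/-- the integrated strip inequality -/
theorem strip_int {σ Δ p X A : ℝ} (hp : 0 < p) (hp4 : p ≤ 4) (h0 : 0 < Δ) (h1 : Δ ≤ 1 / 16) (hσ : 1 / 2 ≤ σ)
    (hσ1 : σ ≤ 9 / 16) (hX : 0 ≤ X) (hA : 0 < A) (hAw : ∀ w : ℝ, Real.exp (-(p * w ^ 2)) ≤ A * ((1 + w ^ 2)⁻¹) ^ 16) :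
    ∫ t in (0:ℝ)..X, zn σ t ^ p ≤ (∫ t in (-X)..(X + X), zn (σ + Δ) t ^ p) + (∫ t in (-X)..(X + X), zn (σ - Δ) t ^ p) +
      10 ^ 7 * A / Δ := by
  set K : ℝ → ℝ := fun w => KS Δ w * Real.exp (p * (Δ ^ 2 - w ^ 2)) with hK
  have hKc : Continuous K := (KS_cont h0).mul (by fun_prop)
  have hK0 : ∀ w, 0 ≤ K w := fun w => mul_nonneg (KS_nonneg h0 w) (Real.exp_pos _).le
  have hKe : ∀ w, K w = Real.exp (p * Δ ^ 2) * (KS Δ w * Real.exp (-(p * w ^ 2))) := by
    intro w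
    simp only [hK]
    rw [show p * (Δ ^ 2 - w ^ 2) = p * Δ ^ 2 + -(p * w ^ 2) by ring, Real.exp_add]
    ring
  have he2 : Real.exp (p * Δ ^ 2) ≤ 2 := by
    have h3 : p * Δ ^ 2 ≤ 1 / 64 := by nlinarith
    have h4 : Real.exp (p * Δ ^ 2) ≤ Real.exp (1 / 64) := Real.exp_le_exp.mpr h3
    have h5 : Real.exp (1 / 64) ≤ 2 := by
      have h6 := Real.exp_bound_div_one_sub_of_interval (x := 1 / 64) (by norm_num) (by norm_num)
      refine h6.trans ?_
      norm_num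
    linarith
  have hKb : ∀ w, K w ≤ (2 * A / Δ) * ((1 + w ^ 2)⁻¹) ^ 16 := by
    intro w
    rw [hKe]
    have := KS_le h0 w
    have h3 := hAw w
    have h4 := KS_nonneg h0 w
    calc Real.exp (p * Δ ^ 2) * (KS Δ w * Real.exp (-(p * w ^ 2))) ≤
        2 * (1 / Δ * (A * ((1 + w ^ 2)⁻¹) ^ 16)) := by
          gcongr
      _ = _ := by ring
  have hKm : ∫ w, K w ≤ 1 := by
    calc ∫ w, K w ≤ ∫ w, 2 * KS Δ w := by
          refine integral_mono_of_nonneg (Eventually.of_forall hK0) ((KS_integrable h0).const_mul _)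
            (Eventually.of_forall fun w => ?_)
          beta_reduce
          rw [hKe]
          have h3 : Real.exp (-(p * w ^ 2)) ≤ 1 := by
            rw [Real.exp_le_one_iff]
            have : 0 ≤ p * w ^ 2 := by positivity
            linarith
          have h4 := KS_nonneg h0 w
          have h5 : KS Δ w * Real.exp (-(p * w ^ 2)) ≤ KS Δ w := mul_le_of_le_one_right h4 h3
          have h6 : 0 ≤ KS Δ w * Real.exp (-(p * w ^ 2)) := by positivity
          exact mul_le_mul he2 h5 h6 (by norm_num)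
      _ = _ := by rw [integral_const_mul, KS_integral h0]; norm_num
  have hc1 := zp_cont' (σ := σ + Δ) (p := p) (by linarith) hp
  have hc2 := zp_cont' (σ := σ - Δ) (p := p) (by linarith) hp
  have hz1 : ∀ x, 0 ≤ zn (σ + Δ) x ^ p := fun x => Real.rpow_nonneg (zn_nonneg _ _) _
  have hz2 : ∀ x, 0 ≤ zn (σ - Δ) x ^ p := fun x => Real.rpow_nonneg (zn_nonneg _ _) _
  have hb1 : ∀ x, zn (σ + Δ) x ^ p ≤ 83000 * (1 + x ^ 2) ^ 2 := fun x => zn_pow_le hp hp4 (by linarith) (by linarith)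
  have hb2 : ∀ x, zn (σ - Δ) x ^ p ≤ 83000 * (1 + x ^ 2) ^ 2 := fun x => zn_pow_le hp hp4 (by linarith) (by linarith)
  set G : ℝ → ℝ := fun x => zn (σ + Δ) x ^ p + zn (σ - Δ) x ^ p with hG
  have hGc : Continuous G := hc1.add hc2
  have hG0 : ∀ x, 0 ≤ G x := fun x => add_nonneg (hz1 x) (hz2 x)
  have hGB : ∀ x, G x ≤ 166000 * (1 + x ^ 2) ^ 2 := fun x => by
    have := hb1 x
    have := hb2 x
    simp only [hG]
    linarith
  have conv : ∀ (g : ℝ → ℝ), Continuous g → (∀ x, 0 ≤ g x) → (∀ x, g x ≤ 83000 * (1 + x ^ 2) ^ 2) → ∀ t : ℝ,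
      Integrable fun w => K w * g (t + w) := by
    intro g hgc hg0 hgb t
    have hcw : Continuous fun w => K w * g (t + w) := by fun_prop
    refine (integrable_inv_one_add_sq.const_mul ((2 * A / Δ) * (83000 * (4 * (1 + t ^ 2) ^ 2)))).mono'
      hcw.aestronglyMeasurable (Eventually.of_forall fun w => ?_)
    rw [Real.norm_of_nonneg (mul_nonneg (hK0 w) (hg0 _))]
    have hw0 : 0 < 1 + w ^ 2 := by positivity
    have hw1 : 0 < (1 + w ^ 2)⁻¹ := by positivity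
    have hw2 : (1 + w ^ 2)⁻¹ ≤ 1 := by
      rw [inv_le_one_iff₀]; right; nlinarith [sq_nonneg w]
    have h3 : 1 + (t + w) ^ 2 ≤ 2 * (1 + t ^ 2) * (1 + w ^ 2) := by
      nlinarith [sq_nonneg (t - w), sq_nonneg w, mul_nonneg (sq_nonneg t) (sq_nonneg w)]
    have h4 : (1 + (t + w) ^ 2) ^ 2 ≤ (2 * (1 + t ^ 2) * (1 + w ^ 2)) ^ 2 :=
      pow_le_pow_left₀ (by positivity) h3 2
    calc K w * g (t + w) ≤ ((2 * A / Δ) * ((1 + w ^ 2)⁻¹) ^ 16) * (83000 * (2 * (1 + t ^ 2) * (1 + w ^ 2)) ^ 2) :=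
          mul_le_mul (hKb w) ((hgb _).trans (by linarith)) (hg0 _) (by positivity)
      _ = (2 * A / Δ) * (83000 * (4 * (1 + t ^ 2) ^ 2)) * (((1 + w ^ 2)⁻¹) ^ 13 * (1 + w ^ 2)⁻¹) *
          ((1 + w ^ 2)⁻¹ * (1 + w ^ 2)) ^ 2 := by ring
      _ = (2 * A / Δ) * (83000 * (4 * (1 + t ^ 2) ^ 2)) * (((1 + w ^ 2)⁻¹) ^ 13 * (1 + w ^ 2)⁻¹) := by
          rw [inv_mul_cancel₀ hw0.ne']; ring
      _ ≤ (2 * A / Δ) * (83000 * (4 * (1 + t ^ 2) ^ 2)) * (1 + w ^ 2)⁻¹ := by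
          refine mul_le_mul_of_nonneg_left ?_ (by positivity)
          exact mul_le_of_le_one_left hw1.le (pow_le_one₀ hw1.le hw2)
  have hpt : ∀ t ∈ Set.Icc 0 X, zn σ t ^ p ≤ ∫ w, K w * G (t + w) := by
    intro t _
    have h3 := strip_pt (t := t) hp h0 h1 hσ (by linarith)
    have j1 := conv _ hc1 hz1 hb1 t
    have j2 := conv _ hc2 hz2 hb2 t
    refine h3.trans (le_of_eq ?_)
    rw [← integral_add j1 j2]
    refine integral_congr_ae (Eventually.of_forall fun w => ?_)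
    simp only [hG, hK]
    ring
  have hmain := avg (K := K) (G := G) (H := fun t => zn σ t ^ p) (X := X) (A := 2 * A / Δ) (B := 166000)
    (by positivity) (by norm_num) hX hKc hK0 hKb hGc hG0 hGB (zp_cont' (by linarith) hp) hpt
  have hE0 : 0 ≤ ∫ t in (-X)..(X + X), G t :=
    intervalIntegral.integral_nonneg (by linarith) fun x _ => hG0 x
  have hsum : ∫ t in (-X)..(X + X), G t = (∫ t in (-X)..(X + X), zn (σ + Δ) t ^ p) +
      (∫ t in (-X)..(X + X), zn (σ - Δ) t ^ p) :=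
    intervalIntegral.integral_add (hc1.intervalIntegrable _ _) (hc2.intervalIntegrable _ _)
  have h9 : (∫ w, K w) * (∫ t in (-X)..(X + X), G t) ≤ ∫ t in (-X)..(X + X), G t :=
    mul_le_of_le_one_left hE0 hKm
  have h10 : 4 * Real.pi * (2 * A / Δ * 166000) ≤ 10 ^ 7 * A / Δ := by
    have hpi := Real.pi_lt_four
    have : 0 < A / Δ := by positivity
    calc 4 * Real.pi * (2 * A / Δ * 166000) = Real.pi * (1328000 * (A / Δ)) := by ring
      _ ≤ 4 * (1328000 * (A / Δ)) := by gcongr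
      _ ≤ 10 ^ 7 * (A / Δ) := by nlinarith
      _ = _ := by ring
  linarith

lemma sym_le {σ p X : ℝ} (hσ : σ < 1) (hp : 0 < p) (hX : 0 ≤ X) :
    ∫ t in (-X)..(X + X), zn σ t ^ p ≤ 2 * ∫ t in (0:ℝ)..(2 * X), zn σ t ^ p := by
  have hc := zp_cont' (σ := σ) hσ hp
  have h0 : ∀ t, 0 ≤ zn σ t ^ p := fun t => Real.rpow_nonneg (zn_nonneg _ _) _
  have h1 : ∫ t in (-X)..(X + X), zn σ t ^ p = (∫ t in (-X)..0, zn σ t ^ p) + ∫ t in (0:ℝ)..(X + X), zn σ t ^ p :=
    (intervalIntegral.integral_add_adjacent_intervals (hc.intervalIntegrable _ _) (hc.intervalIntegrable _ _)).symm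
  have h2 : ∫ t in (-X)..0, zn σ t ^ p = ∫ t in (0:ℝ)..X, zn σ t ^ p := by
    have := intervalIntegral.integral_comp_neg (fun t => zn σ t ^ p) (a := 0) (b := X)
    rw [neg_zero] at this
    rw [← this]
    refine intervalIntegral.integral_congr fun t _ => ?_
    show zn σ (-t) ^ p = zn σ t ^ p
    rw [zn_neg]
  have h3 : ∫ t in (0:ℝ)..X, zn σ t ^ p ≤ ∫ t in (0:ℝ)..(2 * X), zn σ t ^ p :=
    intervalIntegral.integral_mono_interval le_rfl hX (by linarith) (Eventually.of_forall fun x => h0 x)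
      (hc.intervalIntegrable _ _)
  rw [h1, h2, show X + X = 2 * X by ring]
  linarith

/-- the upper bound for the moments, uniformly up to the critical line -/
theorem ub_of {p : ℝ} (hp : 0 < p) (hp4 : p ≤ 4) {lam C0 δ1 : ℝ} (hlam : 1 ≤ lam) (hC0 : 0 < C0) (hδ1 : 0 < δ1)
    (hδ16 : δ1 ≤ 1 / 16)
    (h : ∀ᶠ X : ℝ in atTop, ∀ δ : ℝ, lam / Real.log X ≤ δ → δ ≤ δ1 →
      ∫ t in (0:ℝ)..X, zn (1 / 2 + δ) t ^ p ≤ C0 * X * δ ^ (-((p / 2) ^ 2))) :
    ∃ C : ℝ, 0 < C ∧ ∀ᶠ X : ℝ in atTop, ∀ σ : ℝ, 0 < σ → σ ≤ δ1 →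
      ∫ t in (0:ℝ)..X, zn (1 / 2 + σ) t ^ p ≤ C * X * σ ^ (-((p / 2) ^ 2)) := by
  obtain ⟨A, hA, hAw⟩ := gauss_poly hp
  obtain ⟨q, hq⟩ : ∃ q : ℝ, q = (p / 2) ^ 2 := ⟨_, rfl⟩
  have hq0 : 0 ≤ q := by rw [hq]; positivity
  rw [← hq] at h ⊢
  obtain ⟨M, hM⟩ : ∃ M : ℝ, M = Real.exp (16 * lam) * 16 := ⟨_, rfl⟩
  have hM0 : 0 < M := by rw [hM]; positivity
  refine ⟨C0 + 4 * C0 + 4 * M * C0 + 4 * M * 2000 ^ 4 + 10 ^ 7 * A, by positivity, ?_⟩
  have h2 : ∀ᶠ X : ℝ in atTop, ∀ δ : ℝ, lam / Real.log (2 * X) ≤ δ → δ ≤ δ1 →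
      ∫ t in (0:ℝ)..(2 * X), zn (1 / 2 + δ) t ^ p ≤ C0 * (2 * X) * δ ^ (-q) :=
    (tendsto_id.const_mul_atTop (show (0:ℝ) < 2 by norm_num)).eventually h
  filter_upwards [h, h2, Real.tendsto_log_atTop.eventually_ge_atTop (3 * lam / δ1), eventually_ge_atTop (2:ℝ)]
    with X hX hX2 hlog hX1 σ hσ hσ1
  obtain ⟨L, hL⟩ : ∃ L : ℝ, L = Real.log X := ⟨_, rfl⟩
  rw [← hL] at hlog hX
  have hX0 : 0 < X := by linarith
  have hL1 : 3 * lam ≤ L * δ1 := by rwa [div_le_iff₀ hδ1] at hlog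
  have hL48 : 48 * lam ≤ L := by
    by_contra hc
    push Not at hc
    have : L * δ1 < 48 * lam * δ1 := by nlinarith
    have : 48 * lam * δ1 ≤ 3 * lam := by nlinarith
    linarith
  have hL0 : 0 < L := by linarith
  have hs1 : 1 ≤ σ ^ (-q) := by
    rw [Real.rpow_neg hσ.le]
    refine (one_le_inv₀ (by positivity)).mpr ?_
    exact Real.rpow_le_one hσ.le (by linarith) hq0
  have hs0 : 0 < σ ^ (-q) := by positivity
  rcases le_or_gt (lam / L) σ with hc | hc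
  · refine (hX σ hc hσ1).trans ?_
    have e1 : 0 ≤ (4 * C0 + 4 * M * C0 + 4 * M * 2000 ^ 4 + 10 ^ 7 * A) * X * σ ^ (-q) := by positivity
    nlinarith
  · obtain ⟨Δ, hΔ⟩ : ∃ Δ : ℝ, Δ = 2 * lam / L := ⟨_, rfl⟩
    have hlL : lam / L * L = lam := div_mul_cancel₀ _ hL0.ne'
    have hΔ2 : Δ = 2 * (lam / L) := by rw [hΔ]; ring
    have hlL0 : 0 < lam / L := by positivity
    have h3 : 3 * (lam / L) ≤ δ1 := by
      rw [← mul_div_assoc, div_le_iff₀ hL0]
      linarith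
    have hΔ0 : 0 < Δ := by rw [hΔ2]; positivity
    have hΔ1 : Δ ≤ 1 / 16 := by linarith
    have hlog2 : Real.log (2 * X) = Real.log 2 + L := by rw [Real.log_mul (by norm_num) hX0.ne', hL]
    have hl2 : Real.log 2 ≤ 1 := by linarith [Real.log_two_lt_d9]
    have hl20 : 0 < Real.log 2 := Real.log_pos (by norm_num)
    have hL2 : lam / Real.log (2 * X) ≤ lam / L := by
      rw [hlog2]
      exact div_le_div_of_nonneg_left (by linarith) hL0 (by linarith)
    have hmain := strip_int (σ := 1 / 2 + σ) (Δ := Δ) (p := p) (X := X) (A := A) hp hp4 hΔ0 hΔ1 (by linarith)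
      (by linarith) hX0.le hA hAw
    -- the right line
    have r1 := sym_le (σ := 1 / 2 + σ + Δ) (p := p) (X := X) (by linarith) hp hX0.le
    have r2 := hX2 (σ + Δ) (by linarith) (by linarith)
    rw [← add_assoc] at r2
    have r3 : (σ + Δ) ^ (-q) ≤ σ ^ (-q) := Real.rpow_le_rpow_of_nonpos hσ (by linarith) (by linarith)
    have r4 : C0 * (2 * X) * (σ + Δ) ^ (-q) ≤ C0 * (2 * X) * σ ^ (-q) :=
      mul_le_mul_of_nonneg_left r3 (by positivity)
    -- the left line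
    obtain ⟨a, ha⟩ : ∃ a : ℝ, a = Δ - σ := ⟨_, rfl⟩
    have ha1 : lam / L < a := by rw [ha, hΔ2]; linarith
    have ha0 : 0 < a := by linarith
    have ha2 : a ≤ Δ := by linarith
    have hea : 1 / 2 + σ - Δ = 1 / 2 - a := by rw [ha]; ring
    rw [hea] at hmain
    have l1 := sym_le (σ := 1 / 2 - a) (p := p) (X := X) (by linarith) hp hX0.le
    have l2 := hX2 a (by linarith) (by linarith)
    have l3 : a ^ (-q) ≤ σ ^ (-q) := Real.rpow_le_rpow_of_nonpos hσ (by linarith) (by linarith)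
    have l4 : C0 * (2 * X) * a ^ (-q) ≤ C0 * (2 * X) * σ ^ (-q) :=
      mul_le_mul_of_nonneg_left l3 (by positivity)
    have hXa : (2 * X) ^ a ≤ Real.exp (4 * lam) := by
      rw [Real.rpow_def_of_pos (by positivity)]
      refine Real.exp_le_exp.mpr ?_
      rw [hlog2]
      calc (Real.log 2 + L) * a ≤ (2 * L) * (2 * (lam / L)) := by
            refine mul_le_mul (by linarith) (by linarith) ha0.le (by positivity)
        _ = 4 * (lam / L * L) := by ring
        _ = 4 * lam := by rw [hlL]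
    have hpt : ∀ t ∈ Set.Icc 0 (2 * X), zn (1 / 2 - a) t ^ p ≤ M * (zn (1 / 2 + a) t ^ p + 2000 ^ 4) := by
      intro t ht
      have f1 := fe_p (Δ := a) (τ := t) (p := 1) (X := 2 * X) one_pos le_rfl ha0.le (by linarith) (by linarith)
        (by rw [abs_of_nonneg ht.1]; exact ht.2)
      rw [Real.rpow_one, Real.rpow_one, one_mul] at f1
      have hz := zn_nonneg (1 / 2 + a) t
      have f2 : zn (1 / 2 - a) t ≤ Real.exp (4 * lam) * (zn (1 / 2 + a) t + 2000) :=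
        f1.trans (mul_le_mul_of_nonneg_right hXa (by positivity))
      calc zn (1 / 2 - a) t ^ p ≤ (Real.exp (4 * lam) * (zn (1 / 2 + a) t + 2000)) ^ p :=
            Real.rpow_le_rpow (zn_nonneg _ _) f2 hp.le
        _ = Real.exp (4 * lam) ^ p * (zn (1 / 2 + a) t + 2000) ^ p := Real.mul_rpow (Real.exp_pos _).le (by positivity)
        _ ≤ Real.exp (16 * lam) * (16 * (zn (1 / 2 + a) t ^ p + 2000 ^ 4)) := by
            refine mul_le_mul ?_ ?_ (by positivity) (Real.exp_pos _).le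
            · rw [← Real.exp_mul]
              exact Real.exp_le_exp.mpr (by nlinarith)
            · refine (rpow_add_le hz (by norm_num) hp).trans ?_
              have g1 : (2:ℝ) ^ p ≤ 16 := by
                calc (2:ℝ) ^ p ≤ 2 ^ (4:ℝ) := Real.rpow_le_rpow_of_exponent_le (by norm_num) hp4
                  _ = 16 := by norm_num
              have g2 : (2000:ℝ) ^ p ≤ 2000 ^ 4 := by
                calc (2000:ℝ) ^ p ≤ 2000 ^ (4:ℝ) := Real.rpow_le_rpow_of_exponent_le (by norm_num) hp4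
                  _ = 2000 ^ 4 := by norm_num
              have g3 := Real.rpow_nonneg hz p
              have g4 : (0:ℝ) ≤ 2000 ^ p := by positivity
              exact mul_le_mul g1 (by linarith) (by positivity) (by norm_num)
        _ = _ := by rw [hM]; ring
    have hca := zp_cont' (σ := 1 / 2 + a) (p := p) (by linarith) hp
    have hcb := zp_cont' (σ := 1 / 2 - a) (p := p) (by linarith) hp
    have l5 : ∫ t in (0:ℝ)..(2 * X), zn (1 / 2 - a) t ^ p ≤
        ∫ t in (0:ℝ)..(2 * X), M * (zn (1 / 2 + a) t ^ p + 2000 ^ 4) :=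
      intervalIntegral.integral_mono_on (by positivity) (hcb.intervalIntegrable _ _)
        ((continuous_const.mul (hca.add continuous_const)).intervalIntegrable _ _) hpt
    rw [intervalIntegral.integral_const_mul, intervalIntegral.integral_add (hca.intervalIntegrable _ _)
      (continuous_const.intervalIntegrable _ _), intervalIntegral.integral_const, smul_eq_mul, sub_zero] at l5
    -- the error term
    have hLX : L ≤ X := by rw [hL]; linarith [Real.log_le_sub_one_of_pos hX0]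
    have e1 : 10 ^ 7 * A / Δ ≤ 10 ^ 7 * A * X := by
      rw [hΔ, div_div_eq_mul_div, div_le_iff₀ (by positivity)]
      have : 0 < A * X := by positivity
      nlinarith [mul_le_mul_of_nonneg_left hLX hA.le]
    have e2 : 10 ^ 7 * A * X ≤ 10 ^ 7 * A * X * σ ^ (-q) := le_mul_of_one_le_right (by positivity) hs1
    have e3 : 2 * X * 2000 ^ 4 ≤ 2 * X * 2000 ^ 4 * σ ^ (-q) := le_mul_of_one_le_right (by positivity) hs1
    have e4 : ∫ t in (0:ℝ)..(2 * X), zn (1 / 2 - a) t ^ p ≤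
        M * (C0 * (2 * X) * σ ^ (-q) + 2 * X * 2000 ^ 4 * σ ^ (-q)) :=
      l5.trans (mul_le_mul_of_nonneg_left (by linarith) hM0.le)
    have e5 : 0 ≤ C0 * X * σ ^ (-q) := by positivity
    calc ∫ t in (0:ℝ)..X, zn (1 / 2 + σ) t ^ p ≤ 2 * (C0 * (2 * X) * σ ^ (-q)) +
        2 * (M * (C0 * (2 * X) * σ ^ (-q) + 2 * X * 2000 ^ 4 * σ ^ (-q))) + 10 ^ 7 * A * X * σ ^ (-q) := by
          linarith
      _ = (4 * C0 + 4 * M * C0 + 4 * M * 2000 ^ 4 + 10 ^ 7 * A) * X * σ ^ (-q) := by ring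
      _ ≤ (C0 + 4 * C0 + 4 * M * C0 + 4 * M * 2000 ^ 4 + 10 ^ 7 * A) * X * σ ^ (-q) := by linarith

end Pool.Agent.T6.H6.MA
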